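import Pool.Agent.H73.QA.Sched

/-! Numerical estimates: Hamming balls and the mixing property of drivers. -/

namespace Pool.Agent.H73.QA

open Finset Matrix

theorem ball {β : ℝ} (hβ : 0 < β) : ∃ ε : ℝ, 0 < ε ∧ ε ≤ 1 / 4 ∧ ∀ n : ℕ,
    ((univ.filter fun T : Finset (Fin n) => (T.card : ℝ) ≤ ε * n).card : ℝ) ≤
      (2 : ℝ) ^ (β * n) := by
  have h2 : (1 : ℝ) < 2 ^ (β / 2) := Real.one_lt_rpow (by norm_num) (by linarith)
  obtain ⟨x, hx⟩ : ∃ x : ℝ, x = min 1 (2 ^ (β / 2) - 1) := ⟨_, rfl⟩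
  have hx0 : 0 < x := by rw [hx]; exact lt_min one_pos (by linarith)
  have hx1 : x ≤ 1 := by rw [hx]; exact min_le_left _ _
  have hx2 : 1 + x ≤ 2 ^ (β / 2) := by
    have : x ≤ 2 ^ (β / 2) - 1 := by rw [hx]; exact min_le_right _ _
    linarith
  obtain ⟨L, hL⟩ : ∃ L : ℝ, L = -Real.log x := ⟨_, rfl⟩
  have hL0 : 0 ≤ L := by
    rw [hL]
    have := Real.log_nonpos hx0.le hx1
    linarith
  have hl2 : 0 < Real.log 2 := Real.log_pos (by norm_num)
  obtain ⟨ε, hε⟩ : ∃ ε : ℝ, ε = min (1 / 4) (β / 2 * Real.log 2 / (L + 1)) := ⟨_, rfl⟩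
  have hε0 : 0 < ε := by rw [hε]; exact lt_min (by norm_num) (by positivity)
  have hε1 : ε ≤ 1 / 4 := by rw [hε]; exact min_le_left _ _
  have hε2 : ε * L ≤ β / 2 * Real.log 2 := by
    have h3 : ε ≤ β / 2 * Real.log 2 / (L + 1) := by rw [hε]; exact min_le_right _ _
    rw [le_div_iff₀ (by linarith)] at h3
    nlinarith
  refine ⟨ε, hε0, hε1, fun n => ?_⟩
  have h3 : ((univ.filter fun T : Finset (Fin n) => (T.card : ℝ) ≤ ε * n).card : ℝ) *
      x ^ (ε * n) ≤ (1 + x) ^ n := by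
    have h4 : (∑ T : Finset (Fin n), x ^ T.card) = (1 + x) ^ n := by
      have := Fintype.sum_pow_mul_eq_add_pow (Fin n) x 1
      simp only [one_pow, mul_one, Fintype.card_fin] at this
      rw [this, add_comm]
    rw [← h4, ← nsmul_eq_mul]
    refine (card_nsmul_le_sum _ _ _ fun T hT => ?_).trans
      (sum_le_univ_sum_of_nonneg (f := fun T : Finset (Fin n) => x ^ T.card) fun T => by positivity)
    rw [mem_filter] at hT
    rw [← Real.rpow_natCast x T.card]
    exact Real.rpow_le_rpow_of_exponent_ge hx0 hx1 hT.2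
  have h4 : (1 + x) ^ n ≤ (2 : ℝ) ^ (β / 2 * n) := by
    rw [Real.rpow_mul (by norm_num), Real.rpow_natCast]
    exact pow_le_pow_left₀ (by linarith) hx2 n
  have h5 : (1 : ℝ) ≤ x ^ (ε * n) * 2 ^ (β / 2 * n) := by
    rw [Real.rpow_def_of_pos hx0, Real.rpow_def_of_pos (by norm_num : (0 : ℝ) < 2), ← Real.exp_add]
    rw [Real.one_le_exp_iff]
    have h6 : Real.log x = -L := by rw [hL]; ring
    rw [h6]
    have h7 : (0 : ℝ) ≤ n := Nat.cast_nonneg n
    nlinarith
  have h6 : (0 : ℝ) < x ^ (ε * n) := by positivity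
  have h7 : (2 : ℝ) ^ (β * n) = 2 ^ (β / 2 * n) * 2 ^ (β / 2 * n) := by
    rw [← Real.rpow_add (by norm_num)]
    congr 1
    ring
  rw [h7]
  have h8 : ((univ.filter fun T : Finset (Fin n) => (T.card : ℝ) ≤ ε * n).card : ℝ) *
      x ^ (ε * n) ≤ (2 ^ (β / 2 * n) * 2 ^ (β / 2 * n)) * x ^ (ε * n) := by
    calc _ ≤ (1 + x) ^ n := h3
      _ ≤ 2 ^ (β / 2 * n) * 1 := by rw [mul_one]; exact h4
      _ ≤ 2 ^ (β / 2 * n) * (x ^ (ε * n) * 2 ^ (β / 2 * n)) :=
          mul_le_mul_of_nonneg_left h5 (by positivity)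
      _ = _ := by ring
  exact le_of_mul_le_mul_right h8 h6

/-- exponentials dominate linear functions -/
theorem lin_le_exp {c : ℝ} (hc : 0 < c) {A : ℝ} (hA : 0 ≤ A) : ∃ n₀ : ℕ, ∀ n ≥ n₀,
    A * (n + 1) ≤ (2 : ℝ) ^ (c * n) := by
  have hl2 : 0 < Real.log 2 := Real.log_pos (by norm_num)
  obtain ⟨d, hd⟩ : ∃ d : ℝ, d = c * Real.log 2 := ⟨_, rfl⟩
  have hd0 : 0 < d := by rw [hd]; positivity
  refine ⟨⌈4 * A / d ^ 2⌉₊ + 1, fun n hn => ?_⟩
  have hn1 : (1 : ℝ) ≤ n := by
    have : 1 ≤ n := by omega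
    exact_mod_cast this
  have h1 : 4 * A / d ^ 2 ≤ n := by
    have h2 := Nat.le_ceil (4 * A / d ^ 2)
    have h3 : (⌈4 * A / d ^ 2⌉₊ : ℝ) ≤ n := by
      have : ⌈4 * A / d ^ 2⌉₊ ≤ n := by omega
      exact_mod_cast this
    linarith
  rw [div_le_iff₀ (by positivity)] at h1
  have h2 : (2 : ℝ) ^ (c * n) = Real.exp (d * n) := by
    rw [Real.rpow_def_of_pos (by norm_num), hd]
    congr 1
    ring
  rw [h2]
  have h3 := Real.quadratic_le_exp_of_nonneg (x := d * n) (by positivity)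
  have h4 : A * (n + 1) ≤ A * (2 * n) := by
    refine mul_le_mul_of_nonneg_left (by linarith) hA
  have h5 : A * (2 * n) ≤ (d * n) ^ 2 / 2 := by nlinarith
  have h6 : 0 ≤ d * n := by positivity
  linarith

variable {n : ℕ}

theorem card_compl_filter {ε : ℝ} :
    (univ.filter fun T : Finset (Fin n) => (1 - ε) * n < (T.card : ℝ)).card ≤
      (univ.filter fun T : Finset (Fin n) => (T.card : ℝ) ≤ ε * n).card := by
  refine card_le_card_of_injOn (fun T => Tᶜ) (fun T hT => ?_) fun T _ T' _ h => compl_injective h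
  simp only [coe_filter, mem_univ, true_and, Set.mem_ofPred_eq] at hT ⊢
  have h1 := card_add_card_compl T
  rw [Fintype.card_fin] at h1
  have h2 : (T.card : ℝ) + (Tᶜ.card : ℝ) = n := by exact_mod_cast h1
  linarith

/-- drivers mix -/
theorem mix_of_driver {ε γ q M B : ℝ} {t : ℕ} (hγt : n ≤ γ * t) (hq : 0 ≤ q)
    (hB : ((univ.filter fun T : Finset (Fin n) => (T.card : ℝ) ≤ ε * n).card : ℝ) ≤ B)
    (hM : q ^ (2 * t) * ((2 * B + 1) / 2 ^ n) ≤ M ^ 2)
    {α : Finset (Fin n) → ℝ} (hd : Driver ε γ α) : Mix q t M α := by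
  refine ⟨hd.nonneg, fun hw => le_trans (mul_le_mul_of_nonneg_left
    (div_le_div_of_nonneg_right ?_ (by positivity)) (by positivity)) hM⟩
  have hmu0 : ∀ T, 0 ≤ mu α T := by
    intro T
    unfold mu
    rw [sub_nonneg, div_le_one hw]
    exact odd_le hd.nonneg T
  have hmu1 : ∀ T, mu α T ≤ 1 := by
    intro T
    unfold mu
    have := div_nonneg (odd_nonneg hd.nonneg T) hw.le
    linarith
  have h1 : ∀ T : Finset (Fin n), mu α T ^ (2 * t) ≤
      ((if (T.card : ℝ) ≤ ε * n then 1 else 0) +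
        (if (1 - ε) * n < (T.card : ℝ) then 1 else 0)) + 1 / 2 ^ n := by
    intro T
    by_cases hT1 : (T.card : ℝ) ≤ ε * n
    · rw [if_pos hT1]
      have h2 := pow_le_one₀ (n := 2 * t) (hmu0 T) (hmu1 T)
      have h3 : (0 : ℝ) ≤ if (1 - ε) * n < (T.card : ℝ) then 1 else 0 := by split_ifs <;> norm_num
      have h4 : (0 : ℝ) ≤ 1 / 2 ^ n := by positivity
      linarith
    · by_cases hT2 : (1 - ε) * n < (T.card : ℝ)
      · rw [if_neg hT1, if_pos hT2]
        have h2 := pow_le_one₀ (n := 2 * t) (hmu0 T) (hmu1 T)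
        have h4 : (0 : ℝ) ≤ 1 / 2 ^ n := by positivity
        linarith
      · rw [if_neg hT1, if_neg hT2]
        push Not at hT1 hT2
        have h2 : mu α T ≤ Real.exp (-γ) := by
          have h3 := hd.spread T hT1.le hT2
          have h4 : mu α T ≤ 1 - γ := by
            unfold mu
            have : γ ≤ odd α T / weight α := by
              rw [le_div_iff₀ hw]
              exact h3
            linarith
          have := Real.add_one_le_exp (-γ)
          linarith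
        have h3 : mu α T ^ (2 * t) ≤ Real.exp (-γ) ^ (2 * t) :=
          pow_le_pow_left₀ (hmu0 T) h2 _
        have h4 : Real.exp (-γ) ^ (2 * t) ≤ 1 / 2 ^ n := by
          rw [← Real.exp_nat_mul, le_div_iff₀ (by positivity)]
          have h5 : (2 : ℝ) ^ n ≤ Real.exp n := by
            have h6 : (2 : ℝ) ≤ Real.exp 1 := by
              have := Real.add_one_le_exp (1 : ℝ)
              linarith
            calc (2 : ℝ) ^ n ≤ Real.exp 1 ^ n := pow_le_pow_left₀ (by norm_num) h6 n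
              _ = _ := by rw [← Real.exp_nat_mul, mul_one]
          calc Real.exp (((2 * t : ℕ) : ℝ) * -γ) * 2 ^ n
              ≤ Real.exp (((2 * t : ℕ) : ℝ) * -γ) * Real.exp n :=
                mul_le_mul_of_nonneg_left h5 (Real.exp_nonneg _)
            _ = Real.exp (((2 * t : ℕ) : ℝ) * -γ + n) := by rw [← Real.exp_add]
            _ ≤ 1 := by
                rw [Real.exp_le_one_iff]
                push_cast
                have h7 : (0 : ℝ) ≤ n := Nat.cast_nonneg n
                nlinarith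
        linarith
  refine (sum_le_sum fun T _ => h1 T).trans ?_
  rw [sum_add_distrib, sum_add_distrib]
  simp only [sum_boole, sum_const, card_univ, Fintype.card_finset, Fintype.card_fin, nsmul_eq_mul]
  have h2 : (((univ.filter fun T : Finset (Fin n) => (1 - ε) * n < (T.card : ℝ)).card : ℕ) : ℝ) ≤
      ((univ.filter fun T : Finset (Fin n) => (T.card : ℝ) ≤ ε * n).card : ℕ) := by
    exact_mod_cast card_compl_filter
  have h3 : (((2 : ℕ) ^ n : ℕ) : ℝ) * (1 / 2 ^ n) = 1 := by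
    push_cast
    field_simp
  rw [h3]
  linarith

end Pool.Agent.H73.QA
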