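import Pool.Agent.H73.QA.Num

/-! Random formulas with a planted solution. -/

namespace Pool.Agent.H73.QA

open Finset Matrix

variable {n k : ℕ}

/-- clauses satisfied by `z` -/
noncomputable def sat (k : ℕ) (z : Cube n) : Finset (Clause n k) := univ.filter fun c => ¬ Violates z c

theorem viol_zero_iff {m : ℕ} (F : Fin m → Clause n k) (z : Cube n) :
    viol F z = 0 ↔ F ∈ Fintype.piFinset fun _ : Fin m => sat k z := by
  unfold viol sat
  rw [card_eq_zero, filter_eq_empty_iff, Fintype.mem_piFinset]
  simp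

theorem card_same_le (x z : Cube n) :
    (univ.filter fun v : Fin k ↪ Fin n => ∀ i, x (v i) = z (v i)).card ≤
      (n - (diff x z).card).descFactorial k := by
  have h1 : Fintype.card {j : Fin n // x j = z j} = n - (diff x z).card := by
    rw [Fintype.card_subtype]
    have h2 := card_filter_add_card_filter_not (s := (univ : Finset (Fin n)))
      (fun j => x j = z j)
    rw [card_univ, Fintype.card_fin] at h2
    have h3 : (diff x z).card = (univ.filter fun j => ¬ x j = z j).card := rfl
    omega
  rw [← h1, ← Fintype.card_fin k, ← Fintype.card_embedding_eq, Fintype.card_fin,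
    ← Fintype.card_coe]
  refine Fintype.card_le_of_injective (fun v => (⟨fun i => ⟨v.1 i, (mem_filter.1 v.2).2 i⟩,
    fun i j h => v.1.injective (congrArg Subtype.val h)⟩ : Fin k ↪ {j : Fin n // x j = z j})) ?_
  intro v w h
  apply Subtype.ext
  apply Function.Embedding.ext
  intro i
  have := congrArg (fun f : Fin k ↪ {j : Fin n // x j = z j} => ((f i : _) : Fin n)) h
  exact this

theorem desc_le {ε : ℝ} (hε0 : 0 ≤ ε) (hε : ε ≤ 1) {w : ℕ} (hw : ε * n ≤ w) (k : ℕ) :
    ((n - w).descFactorial k : ℝ) ≤ (1 - ε) ^ k * n.descFactorial k := by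
  induction k with
  | zero => simp
  | succ k ih =>
    rw [Nat.descFactorial_succ, Nat.descFactorial_succ]
    push_cast
    have h1 : (((n - w - k : ℕ)) : ℝ) ≤ (1 - ε) * ((n - k : ℕ) : ℝ) := by
      have h0 : (0 : ℝ) ≤ 1 - ε := by linarith
      rcases Nat.le_total (w + k) n with h | h
      · have h2 : ((n - w - k : ℕ) : ℝ) = n - w - k := by
          rw [Nat.sub_sub, Nat.cast_sub h]
          push_cast
          ring
        have h3 : ((n - k : ℕ) : ℝ) = n - k := Nat.cast_sub (by omega)
        rw [h2, h3]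
        have : (0 : ℝ) ≤ k := Nat.cast_nonneg k
        nlinarith
      · have h2 : n - w - k = 0 := by omega
        rw [h2]
        have : (0 : ℝ) ≤ ((n - k : ℕ) : ℝ) := Nat.cast_nonneg _
        push_cast
        positivity
    calc (((n - w - k : ℕ)) : ℝ) * ((n - w).descFactorial k : ℝ)
        ≤ ((1 - ε) * ((n - k : ℕ) : ℝ)) * ((1 - ε) ^ k * n.descFactorial k) := by
          refine mul_le_mul h1 ih (Nat.cast_nonneg _) ?_
          exact mul_nonneg (by linarith) (Nat.cast_nonneg _)
      _ = (1 - ε) ^ (k + 1) * (((n - k : ℕ) : ℝ) * n.descFactorial k) := by ring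

/-- many of the clauses satisfied by `z` are violated by a distant `x` -/
theorem frac {ε : ℝ} (hε0 : 0 ≤ ε) (hε : ε ≤ 1) (x z : Cube n)
    (hw : ε * n ≤ (diff x z).card) :
    (1 - (1 - ε) ^ k) * ((sat k z).card : ℝ) ≤
      2 ^ k * (((sat k z).filter fun c => Violates x c).card : ℝ) := by
  obtain ⟨N, hN⟩ : ∃ N : ℕ, N = n.descFactorial k := ⟨_, rfl⟩
  have hemb : (univ : Finset (Fin k ↪ Fin n)).card = N := by
    rw [card_univ, Fintype.card_embedding_eq, Fintype.card_fin, Fintype.card_fin, hN]
  have hA : (sat k z).card ≤ N * 2 ^ k := by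
    refine (card_le_univ _).trans (le_of_eq ?_)
    rw [Fintype.card_prod, ← card_univ, hemb]
    simp
  have hB : N ≤ ((sat k z).filter fun c => Violates x c).card +
      (n - (diff x z).card).descFactorial k := by
    have h1 := card_filter_add_card_filter_not (s := (univ : Finset (Fin k ↪ Fin n)))
      (fun v => ∀ i, x (v i) = z (v i))
    rw [hemb] at h1
    have h2 : (univ.filter fun v : Fin k ↪ Fin n => ¬ ∀ i, x (v i) = z (v i)).card ≤
        ((sat k z).filter fun c => Violates x c).card := by
      refine card_le_card_of_injOn (fun v => (v, fun i => x (v i))) (fun v hv => ?_)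
        fun v _ w _ h => (Prod.ext_iff.1 h).1
      simp only [coe_filter, mem_univ, true_and, Set.mem_ofPred_eq] at hv
      simp only [sat, coe_filter, mem_filter, mem_univ, true_and, Set.mem_ofPred_eq, Violates]
      refine ⟨fun h => hv fun i => (h i).symm, fun i => trivial⟩
    have h3 := card_same_le (k := k) x z
    omega
  have h1 := desc_le hε0 hε hw k
  rw [← hN] at h1
  have hA' : ((sat k z).card : ℝ) ≤ N * 2 ^ k := by exact_mod_cast hA
  have hB' : (N : ℝ) ≤ (((sat k z).filter fun c => Violates x c).card : ℝ) +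
      ((n - (diff x z).card).descFactorial k : ℕ) := by exact_mod_cast hB
  have h2 : 0 ≤ 1 - (1 - ε) ^ k := by
    have := pow_le_one₀ (n := k) (by linarith : (0 : ℝ) ≤ 1 - ε) (by linarith)
    linarith
  calc (1 - (1 - ε) ^ k) * ((sat k z).card : ℝ) ≤ (1 - (1 - ε) ^ k) * (N * 2 ^ k) :=
        mul_le_mul_of_nonneg_left hA' h2
    _ = 2 ^ k * (N - (1 - ε) ^ k * N) := by ring
    _ ≤ _ := mul_le_mul_of_nonneg_left (by linarith) (by positivity)

/-- exponential moment -/
theorem moment {m : ℕ} (A : Finset (Clause n k)) (x : Cube n) (L : ℝ) :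
    ∑ F ∈ Fintype.piFinset fun _ : Fin m => A, Real.exp (-L * viol F x) =
      ((A.card : ℝ) - (A.filter fun c => Violates x c).card * (1 - Real.exp (-L))) ^ m := by
  have h1 : ∀ F : Fin m → Clause n k, Real.exp (-L * viol F x) =
      ∏ j, (if Violates x (F j) then Real.exp (-L) else 1) := by
    intro F
    rw [prod_ite, prod_const, prod_const_one, mul_one, ← Real.exp_nat_mul]
    congr 1
    unfold viol
    ring
  simp only [h1]
  rw [← prod_univ_sum (fun _ : Fin m => A)
    (fun _ c => if Violates x c then Real.exp (-L) else 1), prod_const, card_univ,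
    Fintype.card_fin]
  congr 1
  rw [sum_ite]
  simp only [sum_const, nsmul_eq_mul, mul_one]
  have h2 := card_filter_add_card_filter_not (s := A) (fun c => Violates x c)
  have h3 : (A.card : ℝ) = (A.filter fun c => Violates x c).card +
      (A.filter fun c => ¬ Violates x c).card := by exact_mod_cast h2.symm
  rw [h3]
  ring

/-- lower tail -/
theorem tail {m : ℕ} {η : ℝ} (hη0 : 0 < η) (hη : η ≤ 1) (A : Finset (Clause n k)) (x : Cube n)
    (hp : (1 - η / 2) * (A.card : ℝ) ≤ 2 ^ k * ((A.filter fun c => Violates x c).card : ℝ)) :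
    (((Fintype.piFinset fun _ : Fin m => A).filter
      fun F => (viol F x : ℝ) < (1 - η) * (m / 2 ^ k)).card : ℝ) ≤
        (A.card : ℝ) ^ m * Real.exp (-(m / 2 ^ k) * (η ^ 2 / 8)) := by
  obtain ⟨L, hL⟩ : ∃ L, L = η / 2 := ⟨_, rfl⟩
  obtain ⟨q, hq⟩ : ∃ q : ℝ, q = m / 2 ^ k := ⟨_, rfl⟩
  have hq0 : 0 ≤ q := by rw [hq]; positivity
  obtain ⟨y, hy⟩ : ∃ y : ℝ, y = 1 - Real.exp (-L) := ⟨_, rfl⟩
  have hL0 : 0 < L := by rw [hL]; linarith
  have hy1 : L - L ^ 2 / 2 ≤ y := by
    rw [hy]
    have h1 := Real.quadratic_le_exp_of_nonneg hL0.le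
    have h2 : Real.exp (-L) * Real.exp L = 1 := by rw [← Real.exp_add]; simp
    have h3 : 0 < Real.exp (-L) := Real.exp_pos _
    have h4 : Real.exp (-L) * (1 + L + L ^ 2 / 2) ≤ 1 :=
      (mul_le_mul_of_nonneg_left h1 h3.le).trans h2.le
    have h5 : 1 ≤ (1 - L + L ^ 2 / 2) * (1 + L + L ^ 2 / 2) := by nlinarith [sq_nonneg (L ^ 2)]
    have h6 : 0 < 1 + L + L ^ 2 / 2 := by positivity
    have h7 : Real.exp (-L) * (1 + L + L ^ 2 / 2) ≤
        (1 - L + L ^ 2 / 2) * (1 + L + L ^ 2 / 2) := h4.trans h5
    have h8 := le_of_mul_le_mul_right h7 h6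
    linarith
  have hy0 : 0 ≤ y := by
    have : L ≤ 1 / 2 := by rw [hL]; linarith
    nlinarith
  have hM := moment (m := m) A x L
  rw [← hy] at hM
  have h1 : ((A.card : ℝ) - (A.filter fun c => Violates x c).card * y) ^ m ≤
      (A.card : ℝ) ^ m * Real.exp (-(q * ((1 - η / 2) * y))) := by
    have h2 : (A.card : ℝ) - (A.filter fun c => Violates x c).card * y ≤
        A.card * Real.exp (-((1 - η / 2) * y / 2 ^ k)) := by
      have h3 := Real.add_one_le_exp (-((1 - η / 2) * y / 2 ^ k))
      have h4 : (A.card : ℝ) * ((1 - η / 2) * y / 2 ^ k) ≤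
          (A.filter fun c => Violates x c).card * y := by
        rw [mul_div_assoc', div_le_iff₀ (by positivity)]
        nlinarith
      have h5 : (A.card : ℝ) * (-((1 - η / 2) * y / 2 ^ k) + 1) ≤
          A.card * Real.exp (-((1 - η / 2) * y / 2 ^ k)) :=
        mul_le_mul_of_nonneg_left h3 (Nat.cast_nonneg _)
      linarith
    have h0 : 0 ≤ (A.card : ℝ) - (A.filter fun c => Violates x c).card * y := by
      have h3 : ((A.filter fun c => Violates x c).card : ℝ) ≤ A.card := by
        exact_mod_cast card_filter_le _ _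
      have h4 : y ≤ 1 := by rw [hy]; linarith [Real.exp_pos (-L)]
      have h5 : (0 : ℝ) ≤ (A.filter fun c => Violates x c).card := Nat.cast_nonneg _
      nlinarith
    calc _ ≤ (A.card * Real.exp (-((1 - η / 2) * y / 2 ^ k))) ^ m := pow_le_pow_left₀ h0 h2 m
      _ = _ := by
        rw [mul_pow, ← Real.exp_nat_mul, hq]
        congr 2
        ring
  have h2 : (((Fintype.piFinset fun _ : Fin m => A).filter
      fun F => (viol F x : ℝ) < (1 - η) * q).card : ℝ) * Real.exp (-L * ((1 - η) * q)) ≤
      (A.card : ℝ) ^ m * Real.exp (-(q * ((1 - η / 2) * y))) := by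
    refine le_trans ?_ (hM.le.trans h1)
    rw [← nsmul_eq_mul]
    refine (card_nsmul_le_sum _ _ _ fun F hF => ?_).trans
      (sum_le_sum_of_subset_of_nonneg (filter_subset _ _) fun F _ _ => Real.exp_nonneg _)
    rw [mem_filter] at hF
    rw [Real.exp_le_exp]
    nlinarith [hF.2]
  rw [← hq]
  have h3 : 0 < Real.exp (-L * ((1 - η) * q)) := Real.exp_pos _
  refine le_of_mul_le_mul_right (h2.trans ?_) h3
  rw [mul_assoc, ← Real.exp_add]
  refine mul_le_mul_of_nonneg_left ?_ (by positivity)
  rw [Real.exp_le_exp]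
  have h4 : η ^ 2 / 8 + L * (1 - η) ≤ (1 - η / 2) * y := by
    have h5 : (1 - η / 2) * (L - L ^ 2 / 2) ≤ (1 - η / 2) * y :=
      mul_le_mul_of_nonneg_left hy1 (by linarith)
    refine le_trans ?_ h5
    rw [hL]
    nlinarith [sq_nonneg η, mul_nonneg hη0.le (sq_nonneg η)]
  nlinarith [mul_le_mul_of_nonneg_left h4 hq0]

/-- assignments that violate a clause -/
theorem card_violates (c : Clause n k) :
    (univ.filter fun x : Cube n => Violates x c).card * 2 ^ k = 2 ^ n := by
  obtain ⟨v, s⟩ := c
  classical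
  have h1 : (univ.filter fun x : Cube n => Violates x (v, s)) =
      Fintype.piFinset fun j : Fin n => if h : ∃ i, v i = j then {s h.choose} else univ := by
    ext x
    rw [mem_filter, Fintype.mem_piFinset]
    simp only [mem_univ, true_and, Violates]
    constructor
    · intro h j
      by_cases hj : ∃ i, v i = j
      · rw [dif_pos hj, mem_singleton, ← h hj.choose, hj.choose_spec]
      · rw [dif_neg hj]; exact mem_univ _
    · intro h i
      have h2 := h (v i)
      have hj : ∃ i', v i' = v i := ⟨i, rfl⟩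
      rw [dif_pos hj, mem_singleton] at h2
      rw [h2, v.injective hj.choose_spec]
  have h2 : ∀ j : Fin n, (if h : ∃ i, v i = j then ({s h.choose} : Finset Bool) else univ).card =
      if j ∈ univ.map v then 1 else 2 := by
    intro j
    by_cases hj : ∃ i, v i = j
    · rw [dif_pos hj, if_pos (by simpa using hj), card_singleton]
    · rw [dif_neg hj, if_neg (by simpa using hj)]
      simp
  rw [h1, Fintype.card_piFinset]
  simp only [h2]
  rw [prod_ite, prod_const_one, one_mul, prod_const, ← pow_add]
  congr 1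
  have h3 := card_filter_add_card_filter_not (s := (univ : Finset (Fin n)))
    (fun j => j ∈ univ.map v)
  have h4 : (univ.filter fun j => j ∈ univ.map v).card = k := by
    have : (univ.filter fun j => j ∈ univ.map v) = univ.map v := by ext; simp
    rw [this, card_map, card_univ, Fintype.card_fin]
  rw [h4, card_univ, Fintype.card_fin] at h3
  omega

theorem mean_viol {m : ℕ} (F : Fin m → Clause n k) :
    ∑ x : Cube n, (viol F x : ℝ) = (m / 2 ^ k) * 2 ^ n := by
  have h1 : ∀ x : Cube n, (viol F x : ℝ) = ∑ j, if Violates x (F j) then (1 : ℝ) else 0 := by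
    intro x
    unfold viol
    simp
  simp only [h1]
  rw [sum_comm]
  have h2 : ∀ j, ∑ x : Cube n, (if Violates x (F j) then (1 : ℝ) else 0) = 2 ^ n / 2 ^ k := by
    intro j
    have h3 := card_violates (F j)
    rw [sum_boole, eq_div_iff (by positivity)]
    exact_mod_cast h3
  simp only [h2, sum_const, card_univ, Fintype.card_fin, nsmul_eq_mul]
  ring

/-- the Hamming ball around `z` -/
noncomputable def hball (ε : ℝ) (z : Cube n) : Finset (Cube n) :=
  univ.filter fun x => ((diff x z).card : ℝ) ≤ ε * n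

theorem card_hball (ε : ℝ) (z : Cube n) : (hball ε z).card ≤
    (univ.filter fun T : Finset (Fin n) => (T.card : ℝ) ≤ ε * n).card := by
  refine card_le_card_of_injOn (fun x => diff x z) (fun x hx => ?_) fun x _ y _ h => ?_
  · simp only [hball, coe_filter, mem_univ, true_and, Set.mem_ofPred_eq] at hx ⊢
    exact hx
  · simp only at h
    rw [diff_comm x z, diff_comm y z] at h
    rw [← flip_diff z x, h, flip_diff]

end Pool.Agent.H73.QA
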