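import Mathlib

/-!
Quantum annealing for planted k-CNF formulas (MP_0f8dca_lc): the definitions used by the statement.
-/

namespace Pool.Agent.H73.QA

open Finset Matrix

/-- Assignments of `n` Boolean variables; they are also the basis states of `n` qubits. -/
abbrev Cube (n : ℕ) := Fin n → Bool

/-- The variables on which two assignments differ. -/
def diff {n : ℕ} (x y : Cube n) : Finset (Fin n) := univ.filter fun i => x i ≠ y i

/-- Clauses with `k` literals of distinct variables. The clause `c` is violated by `x` when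
`x (c.1 i) = c.2 i` for all `i`. -/
abbrev Clause (n k : ℕ) := (Fin k ↪ Fin n) × (Fin k → Bool)

def Violates {n k : ℕ} (x : Cube n) (c : Clause n k) : Prop := ∀ i, x (c.1 i) = c.2 i

instance {n k : ℕ} (x : Cube n) (c : Clause n k) : Decidable (Violates x c) :=
  inferInstanceAs (Decidable (∀ i, x (c.1 i) = c.2 i))

/-- Number of clauses of the formula `F` that are violated by `x`. -/
def viol {n k m : ℕ} (F : Fin m → Clause n k) (x : Cube n) : ℕ :=
  (univ.filter fun j => Violates x (F j)).card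

/-- Total weight of the coefficients of a driver. -/
noncomputable def weight {n : ℕ} (α : Finset (Fin n) → ℝ) : ℝ := ∑ S, α S

/-- `∑ S, α S X_S` (`X_S` is the product of the Pauli matrices `X_i`, `i ∈ S`) is an admissible
driver: nonnegative coefficients, and for all sets `T` of qubits of size between `ε n` and
`(1 - ε) n` the sets `S` that meet `T` in an odd number of points carry at least the fraction `γ`
of the total weight. -/
structure Driver (ε γ : ℝ) {n : ℕ} (α : Finset (Fin n) → ℝ) : Prop where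
  empty : α ∅ = 0
  nonneg : ∀ S, 0 ≤ α S
  spread : ∀ T : Finset (Fin n), ε * n ≤ T.card → (T.card : ℝ) ≤ (1 - ε) * n →
    γ * weight α ≤ ∑ S ∈ univ.filter (fun S => Odd (S ∩ T).card), α S

/-- The Hamiltonian `H = - ∑ S, α S X_S + b * viol F` in the computational basis. -/
noncomputable def ham {n k m : ℕ} (α : Finset (Fin n) → ℝ) (b : ℝ) (F : Fin m → Clause n k) :
    Matrix (Cube n) (Cube n) ℝ :=
  fun x y => (if x = y then b * viol F x else 0) - α (diff x y)

/-- The scale of the Hamiltonian: weight of the driver plus `b` times the mean number `m / 2 ^ k` of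
violated clauses. -/
noncomputable def scale {n : ℕ} (k m : ℕ) (α : Finset (Fin n) → ℝ) (b : ℝ) : ℝ :=
  weight α + b * m / 2 ^ k

/-- `ψ` is a unit ground state of `H`, separated by `g` from the rest of the spectrum. -/
def Ground {X : Type} [Fintype X] (H : Matrix X X ℝ) (g : ℝ) (ψ : X → ℝ) : Prop :=
  ψ ⬝ᵥ ψ = 1 ∧ ∃ E : ℝ, H *ᵥ ψ = E • ψ ∧
    ∀ w : X → ℝ, w ⬝ᵥ ψ = 0 → (E + g) * (w ⬝ᵥ w) ≤ w ⬝ᵥ H *ᵥ w

/-- A schedule consists of `l + 1` continuous paths of Hamiltonians with admissible drivers; between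
two paths it may jump.  All its Hamiltonians have a ground state `ψ i s` separated by at least `g`
times the scale.  If the overlap of the uniform superposition with the first ground state and the
overlaps of the ground states before and after each jump exceed `2 ^ (-(1 / 2 - e) n) / g`, then the
schedule never leaves the region where the driver dominates, and the last ground state has at most
the amplitude `2 ^ (-(1 / 2 - e) n) / g` on the assignments that violate at most the fraction
`(1 - ζ) / 2 ^ k` of the clauses. -/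
def Hard {n k m : ℕ} (e ε γ ζ : ℝ) (F : Fin m → Clause n k) : Prop :=
  ∀ (g : ℝ) (l : ℕ) (α : ℕ → ℝ → Finset (Fin n) → ℝ) (b : ℕ → ℝ → ℝ) (ψ : ℕ → ℝ → Cube n → ℝ),
    0 < g → g ≤ 1 →
    (∀ i ≤ l, (∀ S, ContinuousOn (fun s => α i s S) (Set.Icc 0 1)) ∧
      ContinuousOn (b i) (Set.Icc 0 1) ∧
      ∀ s ∈ Set.Icc (0 : ℝ) 1, Driver ε γ (α i s) ∧ 0 ≤ b i s ∧ 0 < scale k m (α i s) (b i s) ∧
        Ground (ham (α i s) (b i s) F) (g * scale k m (α i s) (b i s)) (ψ i s)) →
    (2 : ℝ) ^ (-(1 / 2 - e) * n) / g < |(fun _ => (2 : ℝ) ^ (-(n : ℝ) / 2)) ⬝ᵥ ψ 0 0| →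
    (∀ i < l, (2 : ℝ) ^ (-(1 / 2 - e) * n) / g < |ψ i 1 ⬝ᵥ ψ (i + 1) 0|) →
    b l 1 * m / 2 ^ k < 2 * weight (α l 1) ∧
      ∀ L : Finset (Cube n), (∀ x ∈ L, (viol F x : ℝ) ≤ (1 - ζ) * m / 2 ^ k) →
        Real.sqrt (∑ x ∈ L, ψ l 1 x ^ 2) ≤ (2 : ℝ) ^ (-(1 / 2 - e) * n) / g

end Pool.Agent.H73.QA
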