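import Pool.Agent.H73.QA.Stmt

/-! Examples of admissible drivers. -/

namespace Pool.Agent.H73.QA

open Finset

variable {n : ℕ}

/-- transverse fields -/
theorem driver_field (ε : ℝ) (hε : 0 < ε) (α : Finset (Fin n) → ℝ) (a L : ℝ) (ha : 0 ≤ a)
    (hL : 0 < L) (h1 : ∀ S, S.card ≠ 1 → α S = 0)
    (h2 : ∀ i, a ≤ α {i} ∧ α {i} ≤ L * a) : Driver ε (ε / L) α := by
  have hsing : ∀ P : Finset (Fin n) → Prop, ∀ _ : DecidablePred P,
      ∑ S ∈ univ.filter P, α S = ∑ i ∈ univ.filter (fun i => P {i}), α {i} := by
    intro P _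
    have hmap := sum_map (univ.filter fun i => P {i}) ⟨fun i : Fin n => ({i} : Finset (Fin n)),
      singleton_injective⟩ α
    simp only [Function.Embedding.coeFn_mk] at hmap
    rw [← hmap]
    symm
    refine sum_subset (fun S hS => ?_) fun S hS hS' => ?_
    · rw [mem_map] at hS
      obtain ⟨i, hi, rfl⟩ := hS
      rw [mem_filter] at hi ⊢
      exact ⟨mem_univ _, hi.2⟩
    · refine h1 S fun hc => hS' ?_
      obtain ⟨i, rfl⟩ := card_eq_one.1 hc
      rw [mem_filter] at hS
      rw [mem_map]
      exact ⟨i, by rw [mem_filter]; exact ⟨mem_univ _, hS.2⟩, rfl⟩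
  refine ⟨h1 ∅ (by simp), fun S => ?_, fun T hT _ => ?_⟩
  · by_cases hS : S.card = 1
    · obtain ⟨i, rfl⟩ := card_eq_one.1 hS
      exact ha.trans (h2 i).1
    · rw [h1 S hS]
  · have h3 : weight α ≤ n * (L * a) := by
      unfold weight
      have h4 := hsing (fun _ => True) (fun _ => isTrue trivial)
      rw [filter_true, filter_true] at h4
      rw [h4]
      calc ∑ i, α {i} ≤ ∑ _i : Fin n, L * a := sum_le_sum fun i _ => (h2 i).2
        _ = _ := by simp
    have h5 : (T.card : ℝ) * a ≤ ∑ S ∈ univ.filter (fun S => Odd (S ∩ T).card), α S := by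
      rw [hsing]
      have h6 : (univ.filter fun i => Odd (({i} : Finset (Fin n)) ∩ T).card) = T := by
        ext i
        rw [mem_filter]
        by_cases hi : i ∈ T
        · simp [singleton_inter_of_mem hi, hi]
        · simp [singleton_inter_of_notMem hi, hi]
      rw [h6, ← nsmul_eq_mul]
      exact card_nsmul_le_sum _ _ _ fun i _ => (h2 i).1
    refine le_trans ?_ h5
    calc ε / L * weight α ≤ ε / L * (n * (L * a)) := mul_le_mul_of_nonneg_left h3 (by positivity)
      _ = ε * n * a := by field_simp
      _ ≤ _ := mul_le_mul_of_nonneg_right hT ha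

/-- sets of size `j` that contain `i` but not `i'` -/
theorem card_split {i i' : Fin n} (hii : i ≠ i') {j : ℕ} (hj : 1 ≤ j) (hjn : j + 1 ≤ n) :
    n * (n - 1) * (univ.filter fun S : Finset (Fin n) => S.card = j ∧ i ∈ S ∧ i' ∉ S).card =
      j * (n - j) * n.choose j := by
  have h1 : (univ.filter fun S : Finset (Fin n) => S.card = j ∧ i ∈ S ∧ i' ∉ S).card =
      (powersetCard (j - 1) ((univ.erase i).erase i')).card := by
    refine card_bij' (fun S _ => S.erase i) (fun S _ => insert i S) ?_ ?_ ?_ ?_
    · intro S hS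
      simp only [mem_filter, mem_univ, true_and] at hS
      rw [mem_powersetCard]
      refine ⟨fun x hx => ?_, by rw [card_erase_of_mem hS.2.1, hS.1]⟩
      rw [mem_erase] at hx
      simp only [mem_erase, mem_univ, and_true]
      exact ⟨fun h => hS.2.2 (h ▸ hx.2), hx.1⟩
    · intro S hS
      rw [mem_powersetCard] at hS
      have hi : i ∉ S := fun h => by
        have := hS.1 h
        simp at this
      have hi' : i' ∉ S := fun h => by
        have := hS.1 h
        simp at this
      simp only [mem_filter, mem_univ, true_and]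
      refine ⟨by rw [card_insert_of_notMem hi, hS.2]; omega, mem_insert_self _ _, fun h => ?_⟩
      rcases mem_insert.1 h with h | h
      · exact hii h.symm
      · exact hi' h
    · intro S hS
      simp only [mem_filter, mem_univ, true_and] at hS
      exact insert_erase hS.2.1
    · intro S hS
      rw [mem_powersetCard] at hS
      refine erase_insert fun h => ?_
      have := hS.1 h
      simp at this
  have h2 : ((univ.erase i).erase i' : Finset (Fin n)).card = n - 2 := by
    rw [card_erase_of_mem (by simp [Ne.symm hii]), card_erase_of_mem (mem_univ _), card_univ,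
      Fintype.card_fin]
    omega
  rw [h1, card_powersetCard, h2]
  obtain ⟨N, rfl⟩ : ∃ N, n = N + 2 := ⟨n - 2, by omega⟩
  obtain ⟨J, rfl⟩ : ∃ J, j = J + 1 := ⟨j - 1, by omega⟩
  have h3 := Nat.add_one_mul_choose_eq (N + 1) J
  have h4 := Nat.choose_mul_succ_eq N J
  have e1 : N + 2 - 2 = N := by omega
  have e2 : J + 1 - 1 = J := by omega
  have e3 : N + 2 - 1 = N + 1 := by omega
  have e4 : N + 2 - (J + 1) = N + 1 - J := by omega
  rw [e1, e2, e3, e4]
  calc (N + 2) * (N + 1) * N.choose J = (N + 2) * (N.choose J * (N + 1)) := by ring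
    _ = (N + 2) * ((N + 1).choose J * (N + 1 - J)) := by rw [h4]
    _ = ((N + 1 + 1) * (N + 1).choose J) * (N + 1 - J) := by ring
    _ = ((N + 1 + 1).choose (J + 1) * (J + 1)) * (N + 1 - J) := by rw [h3]
    _ = (J + 1) * (N + 1 - J) * (N + 2).choose (J + 1) := by ring

theorem swap_card (i i' : Fin n) (S : Finset (Fin n)) :
    (S.map (Equiv.swap i i').toEmbedding).card = S.card := card_map _

/-- sets of size `j` that meet `T` in an odd number of points -/
theorem odd_count (T : Finset (Fin n)) {j : ℕ} (hj : 1 ≤ j) (hjn : j + 1 ≤ n) :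
    T.card * (n - T.card) * n.choose j ≤
      n * (n - 1) * (univ.filter fun S : Finset (Fin n) => S.card = j ∧ Odd (S ∩ T).card).card := by
  -- pairs of a point in T and a point outside T, for each of which exactly one lies in S
  obtain ⟨Q, hQ⟩ : ∃ Q : Finset (Fin n) → Finset (Fin n × Fin n),
      Q = fun S => (T ×ˢ Tᶜ).filter fun p => (p.1 ∈ S ∧ p.2 ∉ S) ∨ (p.1 ∉ S ∧ p.2 ∈ S) :=
    ⟨_, rfl⟩
  have hQle : ∀ S : Finset (Fin n), S.card = j → (Q S).card ≤ j * (n - j) := by
    intro S hS
    have h1 : (Q S).card ≤ (S ×ˢ Sᶜ).card := by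
      refine card_le_card_of_injOn (fun p => if p.1 ∈ S then p else (p.2, p.1)) ?_ ?_
      · intro p hp
        simp only [hQ, coe_filter, mem_product, mem_compl, Set.mem_ofPred_eq] at hp
        by_cases h : p.1 ∈ S
        · simp only [h, if_true, coe_product, coe_compl, Set.mem_prod, mem_coe, Set.mem_compl_iff,
            true_and]
          rcases hp.2 with h2 | h2
          · exact h2.2
          · exact absurd h h2.1
        · simp only [h, if_false, coe_product, coe_compl, Set.mem_prod, mem_coe,
            Set.mem_compl_iff, not_false_iff, and_true]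
          rcases hp.2 with h2 | h2
          · exact absurd h2.1 h
          · exact h2.2
      · intro p hp p' hp' h
        simp only [hQ, coe_filter, mem_product, mem_compl, Set.mem_ofPred_eq] at hp hp'
        by_cases h1 : p.1 ∈ S <;> by_cases h2 : p'.1 ∈ S
        · simpa [h1, h2] using h
        · simp only [h1, h2, if_true, if_false] at h
          exfalso
          apply hp'.1.2
          have := congrArg Prod.fst h
          simp only at this
          rw [← this]
          exact hp.1.1
        · simp only [h1, h2, if_true, if_false] at h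
          exfalso
          apply hp.1.2
          have := congrArg Prod.fst h
          simp only at this
          rw [this]
          exact hp'.1.1
        · simp only [h1, h2, if_false] at h
          have h3 := congrArg Prod.fst h
          have h4 := congrArg Prod.snd h
          simp only at h3 h4
          exact Prod.ext h4 h3
    rw [card_product, hS, card_compl, Fintype.card_fin, hS] at h1
    exact h1
  -- double counting
  obtain ⟨O, hO⟩ : ∃ O : Finset (Finset (Fin n)),
      O = univ.filter fun S : Finset (Fin n) => S.card = j ∧ Odd (S ∩ T).card := ⟨_, rfl⟩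
  have h1 : ∑ S ∈ O, (Q S).card ≤ O.card * (j * (n - j)) := by
    rw [← smul_eq_mul]
    refine sum_le_card_nsmul _ _ _ fun S hS => hQle S ?_
    rw [hO, mem_filter] at hS
    exact hS.2.1
  have h2 : ∑ S ∈ O, (Q S).card = ∑ p ∈ T ×ˢ Tᶜ,
      (O.filter fun S => (p.1 ∈ S ∧ p.2 ∉ S) ∨ (p.1 ∉ S ∧ p.2 ∈ S)).card := by
    rw [hQ]
    simp only [card_filter]
    rw [sum_comm]
  have h3 : ∀ p ∈ T ×ˢ Tᶜ, j * (n - j) * n.choose j ≤
      n * (n - 1) * (O.filter fun S => (p.1 ∈ S ∧ p.2 ∉ S) ∨ (p.1 ∉ S ∧ p.2 ∈ S)).card := by
    intro p hp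
    rw [mem_product, mem_compl] at hp
    obtain ⟨i, i'⟩ := p
    simp only at hp ⊢
    have hii : i ≠ i' := fun h => hp.2 (h ▸ hp.1)
    rw [← card_split hii hj hjn]
    refine Nat.mul_le_mul_left _ ?_
    -- send S to itself if the intersection is odd, else to the swapped set
    refine card_le_card_of_injOn (fun S => if Odd (S ∩ T).card then S else
      S.map (Equiv.swap i i').toEmbedding) ?_ ?_
    · intro S hS
      simp only [coe_filter, mem_univ, true_and, Set.mem_ofPred_eq] at hS
      obtain ⟨hS1, hS2, hS3⟩ := hS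
      simp only [hO, coe_filter, mem_filter, mem_univ, true_and, Set.mem_ofPred_eq]
      by_cases hodd : Odd (S ∩ T).card
      · rw [if_pos hodd]
        exact ⟨⟨hS1, hodd⟩, Or.inl ⟨hS2, hS3⟩⟩
      · rw [if_neg hodd]
        have hmem : ∀ x, x ∈ S.map (Equiv.swap i i').toEmbedding ↔ Equiv.swap i i' x ∈ S := by
          intro x
          rw [mem_map]
          constructor
          · rintro ⟨y, hy, rfl⟩
            simpa using hy
          · intro h
            exact ⟨Equiv.swap i i' x, h, by simp⟩
        refine ⟨⟨by rw [card_map, hS1], ?_⟩, Or.inr ⟨?_, ?_⟩⟩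
        · have h4 : S.map (Equiv.swap i i').toEmbedding ∩ T = (S ∩ T).erase i := by
            ext x
            rw [mem_inter, hmem, mem_erase, mem_inter]
            by_cases hx : x = i
            · subst hx
              simp [Equiv.swap_apply_left, hS3]
            · by_cases hx' : x = i'
              · subst hx'
                simp [hp.2]
              · rw [Equiv.swap_apply_of_ne_of_ne hx hx']
                simp [hx]
          rw [h4, card_erase_of_mem (mem_inter.2 ⟨hS2, hp.1⟩)]
          have h5 : 0 < (S ∩ T).card := card_pos.2 ⟨i, mem_inter.2 ⟨hS2, hp.1⟩⟩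
          rw [Nat.not_odd_iff_even] at hodd
          obtain ⟨r, hr⟩ := hodd
          exact ⟨r - 1, by omega⟩
        · rw [hmem, Equiv.swap_apply_left]; exact hS3
        · rw [hmem, Equiv.swap_apply_right]; exact hS2
    · intro S hS S' hS' h
      simp only [coe_filter, mem_univ, true_and, Set.mem_ofPred_eq] at hS hS'
      have hmem : ∀ (S : Finset (Fin n)) (x : Fin n),
          x ∈ S.map (Equiv.swap i i').toEmbedding ↔ Equiv.swap i i' x ∈ S := by
        intro S x
        rw [mem_map]
        constructor
        · rintro ⟨y, hy, rfl⟩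
          simpa using hy
        · intro h
          exact ⟨Equiv.swap i i' x, h, by simp⟩
      by_cases h1 : Odd (S ∩ T).card <;> by_cases h2 : Odd (S' ∩ T).card
      · simpa [h1, h2] using h
      · simp only [h1, h2, if_true, if_false] at h
        exfalso
        have : i ∈ S := hS.2.1
        rw [h, hmem, Equiv.swap_apply_left] at this
        exact hS'.2.2 this
      · simp only [h1, h2, if_true, if_false] at h
        exfalso
        have : i ∈ S' := hS'.2.1
        rw [← h, hmem, Equiv.swap_apply_left] at this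
        exact hS.2.2 this
      · simp only [h1, h2, if_false] at h
        exact map_injective _ h
  have h4 : (T.card * (n - T.card)) * (j * (n - j) * n.choose j) ≤
      n * (n - 1) * (O.card * (j * (n - j))) := by
    calc (T.card * (n - T.card)) * (j * (n - j) * n.choose j)
        = ∑ _p ∈ T ×ˢ Tᶜ, j * (n - j) * n.choose j := by
          rw [sum_const, card_product, card_compl, Fintype.card_fin, smul_eq_mul]
      _ ≤ ∑ p ∈ T ×ˢ Tᶜ, n * (n - 1) *
          (O.filter fun S => (p.1 ∈ S ∧ p.2 ∉ S) ∨ (p.1 ∉ S ∧ p.2 ∈ S)).card := sum_le_sum h3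
      _ = n * (n - 1) * ∑ S ∈ O, (Q S).card := by rw [← mul_sum, h2]
      _ ≤ _ := Nat.mul_le_mul_left _ h1
  have h5 : 0 < j * (n - j) := Nat.mul_pos (by omega) (by omega)
  rw [← hO]
  refine Nat.le_of_mul_le_mul_right ?_ h5
  calc T.card * (n - T.card) * n.choose j * (j * (n - j))
      = (T.card * (n - T.card)) * (j * (n - j) * n.choose j) := by ring
    _ ≤ n * (n - 1) * (O.card * (j * (n - j))) := h4
    _ = _ := by ring

/-- permutation symmetric drivers -/
theorem driver_symm (ε : ℝ) (hε : 0 < ε) (hε1 : ε < 1 / 2) (α : Finset (Fin n) → ℝ)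
    (h0 : α ∅ = 0) (hu : α univ = 0) (hnn : ∀ S, 0 ≤ α S)
    (hs : ∀ S T : Finset (Fin n), S.card = T.card → α S = α T) : Driver ε (ε * (1 - ε)) α := by
  refine ⟨h0, hnn, fun T hT1 hT2 => ?_⟩
  have hlt : ∀ S : Finset (Fin n), S.card < n + 1 := fun S => by
    have := card_le_univ S
    rw [Fintype.card_fin] at this
    omega
  have h1 : weight α = ∑ j ∈ range (n + 1),
      ∑ S ∈ univ.filter (fun S : Finset (Fin n) => S.card = j), α S := by
    unfold weight
    rw [sum_fiberwise_of_maps_to]
    exact fun S _ => mem_range.2 (hlt S)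
  have h2 : ∑ S ∈ univ.filter (fun S => Odd (S ∩ T).card), α S = ∑ j ∈ range (n + 1),
      ∑ S ∈ univ.filter (fun S : Finset (Fin n) => S.card = j ∧ Odd (S ∩ T).card), α S := by
    rw [← sum_fiberwise_of_maps_to (g := fun S : Finset (Fin n) => S.card) (t := range (n + 1))
      fun S _ => mem_range.2 (hlt S)]
    refine sum_congr rfl fun j _ => ?_
    rw [filter_filter]
    refine sum_congr ?_ fun _ _ => rfl
    ext S
    simp only [mem_filter, mem_univ, true_and]
    exact and_comm
  rw [h1, h2, mul_sum]
  refine sum_le_sum fun j hj => ?_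
  rw [mem_range] at hj
  by_cases hj1 : 1 ≤ j ∧ j + 1 ≤ n
  · obtain ⟨hja, hjb⟩ := hj1
    obtain ⟨S₀, -, hS₀⟩ : ∃ S₀ ⊆ (univ : Finset (Fin n)), S₀.card = j :=
      exists_subset_card_eq (by rw [card_univ, Fintype.card_fin]; omega)
    have h3 : ∑ S ∈ univ.filter (fun S : Finset (Fin n) => S.card = j), α S =
        n.choose j * α S₀ := by
      rw [sum_congr rfl fun S hS => hs S S₀ (by
        rw [mem_filter] at hS
        rw [hS.2, hS₀]), sum_const, nsmul_eq_mul]
      congr 2
      have : (univ.filter fun S : Finset (Fin n) => S.card = j) = powersetCard j univ := by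
        ext S
        simp [mem_powersetCard]
      rw [this, card_powersetCard, card_univ, Fintype.card_fin]
    have h4 : ∑ S ∈ univ.filter (fun S : Finset (Fin n) => S.card = j ∧ Odd (S ∩ T).card), α S =
        (univ.filter fun S : Finset (Fin n) => S.card = j ∧ Odd (S ∩ T).card).card * α S₀ := by
      rw [sum_congr rfl fun S hS => hs S S₀ (by
        rw [mem_filter] at hS
        rw [hS.2.1, hS₀]), sum_const, nsmul_eq_mul]
    rw [h3, h4, ← mul_assoc]
    refine mul_le_mul_of_nonneg_right ?_ (hnn _)
    have h5 := odd_count T hja hjb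
    have hTn := card_le_univ T
    rw [Fintype.card_fin] at hTn
    obtain ⟨O, hO⟩ : ∃ O : ℕ,
      O = (univ.filter fun S : Finset (Fin n) => S.card = j ∧ Odd (S ∩ T).card).card := ⟨_, rfl⟩
    rw [← hO] at h5 ⊢
    have h6 : (T.card : ℝ) * (n - T.card) * n.choose j ≤ n * (n - 1) * O := by
      have h7 : ((T.card * (n - T.card) * n.choose j : ℕ) : ℝ) ≤
          ((n * (n - 1) * O : ℕ) : ℝ) := by exact_mod_cast h5
      have h8 : ((n - 1 : ℕ) : ℝ) = n - 1 := by
        rw [Nat.cast_sub (by omega)]
        simp
      push_cast at h7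
      rw [Nat.cast_sub hTn, h8] at h7
      exact h7
    have hn : (0 : ℝ) < n := by
      have : 0 < n := by omega
      exact_mod_cast this
    have h7 : ε * (1 - ε) * (n * n) ≤ T.card * (n - T.card) := by nlinarith
    have hO0 : (0 : ℝ) ≤ O := Nat.cast_nonneg _
    have hC0 : (0 : ℝ) ≤ n.choose j := Nat.cast_nonneg _
    have h8 : ε * (1 - ε) * (n * n) * n.choose j ≤ n * n * O := by
      calc ε * (1 - ε) * (n * n) * n.choose j ≤ T.card * (n - T.card) * n.choose j :=
            mul_le_mul_of_nonneg_right h7 hC0
        _ ≤ n * (n - 1) * O := h6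
        _ ≤ n * n * O := by
            refine mul_le_mul_of_nonneg_right ?_ hO0
            nlinarith
    have h9 : (0 : ℝ) < n * n := by positivity
    refine le_of_mul_le_mul_left ?_ h9
    linarith
  · have hz : ∀ S : Finset (Fin n), S.card = j → α S = 0 := by
      intro S hS
      have h5 : j = 0 ∨ j = n := by omega
      rcases h5 with h5 | h5
      · rw [h5, card_eq_zero] at hS
        rw [hS, h0]
      · have : S = univ := by
          rw [← card_eq_iff_eq_univ, Fintype.card_fin, hS, h5]
        rw [this, hu]
    rw [sum_eq_zero fun S hS => hz S (mem_filter.1 hS).2]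
    rw [mul_zero]
    exact sum_nonneg fun S _ => hnn S

end Pool.Agent.H73.QA
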