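import Pool.Agent.H73.QA.Types

/-! Classification of ground states and chains. -/

namespace Pool.Agent.H73.QA

open Finset Matrix

section
variable {X : Type} [Fintype X]

theorem Ground.min {H : Matrix X X ℝ} (hH : Hᵀ = H) {g : ℝ} (_hg : 0 ≤ g) {ψ : X → ℝ} {E : ℝ}
    (h1 : ψ ⬝ᵥ ψ = 1) (h2 : H *ᵥ ψ = E • ψ)
    (h3 : ∀ w : X → ℝ, w ⬝ᵥ ψ = 0 → (E + g) * (w ⬝ᵥ w) ≤ w ⬝ᵥ H *ᵥ w) (u : X → ℝ) :
    E * (u ⬝ᵥ u) + g * (u ⬝ᵥ u - (u ⬝ᵥ ψ) ^ 2) ≤ u ⬝ᵥ H *ᵥ u := by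
  obtain ⟨a, ha⟩ : ∃ a, a = u ⬝ᵥ ψ := ⟨_, rfl⟩
  have hw : (u + (-a) • ψ) ⬝ᵥ ψ = 0 := by
    rw [add_dotProduct, smul_dotProduct, h1, smul_eq_mul, ← ha]; ring
  have h4 := h3 _ hw
  rw [norm_add, quad_add hH, h1, h2, dotProduct_smul, h1, sym_dot hH ψ u, h2, dotProduct_smul,
    dotProduct_comm ψ u, ← ha] at h4
  simp only [smul_eq_mul] at h4
  rw [← ha]
  nlinarith

end

variable {n : ℕ} {C : Cube n → ℝ} {cb η ρ : ℝ} {R : Finset (Cube n)} {z : Cube n}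

/-- a separated ground state can be replaced by its absolute value -/
theorem Ground.abs {α : Finset (Fin n) → ℝ} (hα : ∀ S, 0 ≤ α S) {b g : ℝ} (hg : 0 < g)
    {ψ : Cube n → ℝ} (h : Ground (hamC α b C) g ψ) :
    Ground (hamC α b C) g (fun x => |ψ x|) ∧
      ∃ c : ℝ, |c| = 1 ∧ ψ = c • fun x => |ψ x| := by
  obtain ⟨h1, E, h2, h3⟩ := h
  have hmin := Ground.min (hamC_symm α b C) hg.le h1 h2 h3
  have hmin' : ∀ u : Cube n → ℝ, E * (u ⬝ᵥ u) ≤ u ⬝ᵥ hamC α b C *ᵥ u := by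
    intro u
    have h4 := hmin u
    have h5 := cs u ψ
    rw [h1, mul_one] at h5
    nlinarith
  obtain ⟨h4, h5⟩ := nonneg_ground hα b C h1 h2 hmin'
  obtain ⟨a, ha⟩ : ∃ a : Cube n → ℝ, a = fun x => |ψ x| := ⟨_, rfl⟩
  rw [← ha] at h4 h5 ⊢
  obtain ⟨c, hc⟩ : ∃ c, c = a ⬝ᵥ ψ := ⟨_, rfl⟩
  have h6 := hmin a
  rw [h5, dotProduct_smul, h4, smul_eq_mul, ← hc] at h6
  have h7 := cs a ψ
  rw [h4, h1, ← hc] at h7
  have hc2 : c ^ 2 = 1 := by nlinarith
  have h8 : (a + (-c) • ψ) ⬝ᵥ (a + (-c) • ψ) = 0 := by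
    rw [norm_add, h4, h1, dotProduct_comm ψ a, ← hc]
    nlinarith
  have h9 := dot_self_eq_zero h8
  have h10 : a = c • ψ := by
    rw [neg_smul, ← sub_eq_add_neg] at h9
    exact sub_eq_zero.1 h9
  have hcabs : |c| = 1 := by
    have : |c| ^ 2 = 1 := by rw [sq_abs]; exact hc2
    nlinarith [abs_nonneg c]
  refine ⟨⟨h4, E, h5, fun w hw => ?_⟩, c, hcabs, ?_⟩
  · refine h3 w ?_
    rw [h10, dotProduct_smul, smul_eq_mul] at hw
    rcases mul_eq_zero.1 hw with h | h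
    · rw [h] at hc2
      norm_num at hc2
    · exact h
  · rw [h10, smul_smul, ← sq, hc2, one_smul]

theorem Aop_quad_le {α : Finset (Fin n) → ℝ} (hα : ∀ S, 0 ≤ α S) (u : Cube n → ℝ) :
    ∑ x, u x * Aop α u x ≤ weight α * (u ⬝ᵥ u) := by
  have h1 : ∀ x, u x * Aop α u x ≤ ∑ S, α S * ((u x ^ 2 + u (flip S x) ^ 2) / 2) := by
    intro x
    rw [Aop_eq, mul_sum]
    refine sum_le_sum fun S _ => ?_
    have h2 : u x * (α S * u (flip S x)) = α S * (u x * u (flip S x)) := by ring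
    rw [h2]
    refine mul_le_mul_of_nonneg_left ?_ (hα S)
    nlinarith [sq_nonneg (u x - u (flip S x))]
  refine (sum_le_sum fun x _ => h1 x).trans (le_of_eq ?_)
  rw [sum_comm]
  unfold weight
  rw [sum_mul]
  refine sum_congr rfl fun S _ => ?_
  rw [← mul_sum]
  congr 1
  have hinv : Function.Involutive (flip S : Cube n → Cube n) := by
    intro x
    funext i
    by_cases h : i ∈ S <;> simp [flip, h]
  have h3 : ∑ x, u (flip S x) ^ 2 = ∑ x, u x ^ 2 :=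
    Function.Bijective.sum_comp hinv.bijective fun x => u x ^ 2
  rw [← sum_div, sum_add_distrib, h3]
  unfold dotProduct
  have h4 : ∑ x, u x * u x = ∑ x, u x ^ 2 := sum_congr rfl fun x _ => (sq _).symm
  rw [h4]
  ring

/-- the lowest energy is not positive -/
theorem Data.energy_nonpos (d : Data C cb η ρ R z) {α : Finset (Fin n) → ℝ}
    (hα : ∀ S, 0 ≤ α S) {b : ℝ} {E : ℝ}
    (hmin : ∀ u : Cube n → ℝ, E * (u ⬝ᵥ u) ≤ u ⬝ᵥ hamC α b C *ᵥ u) : E ≤ 0 := by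
  have h1 := hmin (Pi.single z 1)
  have h2 : (Pi.single z (1 : ℝ) : Cube n → ℝ) ⬝ᵥ Pi.single z 1 = 1 := by simp
  have h3 : (Pi.single z (1 : ℝ) : Cube n → ℝ) ⬝ᵥ hamC α b C *ᵥ Pi.single z 1 =
      b * C z - α ∅ := by
    rw [single_one_dotProduct, mulVec_single_one]
    simp [hamC, diff_self]
  rw [h2, h3, d.zero] at h1
  have := hα ∅
  linarith

/-- the energy difference when the cost dominates -/
theorem Data.energy_far (d : Data C cb η ρ R z) {α : Finset (Fin n) → ℝ}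
    (hα : ∀ S, 0 ≤ α S) {b : ℝ} (hb : 0 ≤ b) {E E' : ℝ} {v' : Cube n → ℝ}
    (hmin : ∀ u : Cube n → ℝ, E * (u ⬝ᵥ u) ≤ u ⬝ᵥ hamC α b C *ᵥ u)
    (hv' : v' ⬝ᵥ v' = 1) (he' : hamC α b (flat η cb C) *ᵥ v' = E' • v') :
    b * ((1 - η) * cb) - weight α ≤ E' - E := by
  have h1 := d.energy_nonpos hα hmin
  have h3 : v' ⬝ᵥ hamC α b (flat η cb C) *ᵥ v' = E' := by
    rw [he', dotProduct_smul, hv', smul_eq_mul, mul_one]
  rw [← h3, hamC_quad]
  have h4 := Aop_quad_le hα v'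
  rw [hv', mul_one] at h4
  have h5 : b * ((1 - η) * cb) ≤ ∑ x, b * flat η cb C x * (v' x * v' x) := by
    have h6 : b * ((1 - η) * cb) = ∑ x, b * ((1 - η) * cb) * (v' x * v' x) := by
      rw [← mul_sum]
      have : ∑ x, v' x * v' x = 1 := hv'
      rw [this, mul_one]
    rw [h6]
    refine sum_le_sum fun x _ => ?_
    exact mul_le_mul_of_nonneg_right (mul_le_mul_of_nonneg_left (Data.flat_ge x) hb)
      (mul_self_nonneg _)
  linarith

/-- the ground state when the cost dominates -/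
theorem Data.far_region (d : Data C cb η ρ R z) {α : Finset (Fin n) → ℝ} (hα : ∀ S, 0 ≤ α S)
    {b : ℝ} (hb : 0 ≤ b) (hreg : 2 * weight α < b * cb) {E : ℝ} {ψ : Cube n → ℝ}
    (hψ1 : ψ ⬝ᵥ ψ = 1) (hψ : hamC α b C *ᵥ ψ = E • ψ) (hψ0 : ∀ x, 0 ≤ ψ x)
    (hmin : ∀ u : Cube n → ℝ, E * (u ⬝ᵥ u) ≤ u ⬝ᵥ hamC α b C *ᵥ u) :
    (fun _ => amp n) ⬝ᵥ ψ ≤ 3 * (Real.sqrt R.card * amp n) := by
  have hE : E ≤ 0 := d.energy_nonpos hα hmin
  obtain ⟨u0, hu0⟩ : ∃ u0, u0 = (fun _ => amp n) ⬝ᵥ ψ := ⟨_, rfl⟩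
  have ha := amp_pos n
  have hw := weight_nonneg hα
  have h1 : (E + weight α) * u0 = ∑ x, b * C x * (amp n * ψ x) := by
    have h2 : (fun _ => amp n) ⬝ᵥ hamC α b C *ᵥ ψ = E * u0 := by
      rw [hψ, dotProduct_smul, smul_eq_mul, hu0]
    rw [sym_dot (hamC_symm α b C)] at h2
    have h3 : ψ ⬝ᵥ hamC α b C *ᵥ (fun _ => amp n) =
        ∑ x, b * C x * (amp n * ψ x) - weight α * u0 := by
      rw [hamC_quad, hu0]
      simp only [Aop_const]
      congr 1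
      · exact sum_congr rfl fun x _ => by ring
      · unfold dotProduct
        rw [mul_sum]
        exact sum_congr rfl fun x _ => by ring
    rw [h3] at h2
    linarith
  obtain ⟨sR, hsR⟩ : ∃ sR, sR = ∑ x ∈ R, amp n * ψ x := ⟨_, rfl⟩
  have h4 : b * ((1 - η) * cb) * (u0 - sR) ≤ ∑ x, b * C x * (amp n * ψ x) := by
    have h5 : u0 - sR = ∑ x, (if x ∈ R then 0 else amp n * ψ x) := by
      rw [hu0, hsR]
      have h6 : ∑ x ∈ R, amp n * ψ x = ∑ x, (if x ∈ R then amp n * ψ x else 0) := by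
        rw [sum_ite_mem, univ_inter]
      rw [h6]
      unfold dotProduct
      rw [← sum_sub_distrib]
      refine sum_congr rfl fun x _ => ?_
      by_cases h : x ∈ R <;> simp [h]
    rw [h5, mul_sum]
    refine sum_le_sum fun x _ => ?_
    have h7 : 0 ≤ amp n * ψ x := mul_nonneg ha.le (hψ0 x)
    by_cases h : x ∈ R
    · rw [if_pos h, mul_zero]
      exact mul_nonneg (mul_nonneg hb (d.nonneg x)) h7
    · rw [if_neg h]
      exact mul_le_mul_of_nonneg_right (mul_le_mul_of_nonneg_left (d.far x h) hb) h7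
  have h8 : sR ≤ Real.sqrt R.card * amp n := by
    have h9 : sR = amp n * ∑ x ∈ R, 1 * ψ x := by
      rw [hsR, mul_sum]
      exact sum_congr rfl fun x _ => by ring
    have h10 : ∑ x ∈ R, 1 * ψ x ≤ Real.sqrt R.card := by
      refine Real.le_sqrt_of_sq_le ?_
      have h11 := sum_mul_sq_le_sq_mul_sq R (fun _ => (1 : ℝ)) ψ
      have h12 : ∑ x ∈ R, ψ x ^ 2 ≤ 1 := by
        rw [← hψ1]
        unfold dotProduct
        calc ∑ x ∈ R, ψ x ^ 2 ≤ ∑ x, ψ x ^ 2 := sum_le_univ_sum_of_nonneg fun x => sq_nonneg _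
          _ = _ := sum_congr rfl fun x _ => sq _
      simp only [one_pow, sum_const, nsmul_eq_mul, mul_one] at h11
      calc (∑ x ∈ R, 1 * ψ x) ^ 2 ≤ (R.card : ℝ) * ∑ x ∈ R, ψ x ^ 2 := h11
        _ ≤ (R.card : ℝ) * 1 := mul_le_mul_of_nonneg_left h12 (Nat.cast_nonneg _)
        _ = _ := mul_one _
    rw [h9, mul_comm]
    exact mul_le_mul_of_nonneg_right h10 ha.le
  have hsR0 : 0 ≤ sR := by
    rw [hsR]; exact sum_nonneg fun x _ => mul_nonneg ha.le (hψ0 x)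
  have hu00 : 0 ≤ u0 := by
    rw [hu0]
    unfold dotProduct
    exact sum_nonneg fun x _ => mul_nonneg ha.le (hψ0 x)
  have hs := d.small
  have hη := d.η_pos
  have hρ := d.ρ_pos
  obtain ⟨B, hB⟩ : ∃ B, B = b * cb := ⟨_, rfl⟩
  have hB0 : 0 < B := by rw [hB]; linarith
  have h13 : B * (1 - η) * (u0 - sR) ≤ (E + weight α) * u0 := by
    rw [h1]
    refine le_trans (le_of_eq ?_) h4
    rw [hB]; ring
  have h14 : (E + weight α) * u0 ≤ B / 2 * u0 :=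
    mul_le_mul_of_nonneg_right (by rw [hB]; linarith) hu00
  have h15 : B * ((1 - η) * (u0 - sR) - u0 / 2) ≤ 0 := by nlinarith
  have h16 : (1 - η) * (u0 - sR) - u0 / 2 ≤ 0 := by
    by_contra h
    push Not at h
    have := mul_pos hB0 h
    linarith
  have h17 : u0 * (7 / 16) ≤ sR := by nlinarith
  linarith

/-- A state is `Spread out` when it is a small perturbation of a function bounded by `M`. -/
def Out (R : Finset (Cube n)) (M r : ℝ) (ψ : Cube n → ℝ) : Prop :=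
  (∃ φ ξ : Cube n → ℝ, ψ = φ + ξ ∧ (∀ x, 0 ≤ φ x ∧ φ x ≤ M) ∧ ξ ⬝ᵥ ξ ≤ (3 * r) ^ 2) ∧
    nR R ψ ≤ 4 * r

/-- ground states of the first kind -/
theorem Data.good (d : Data C cb η ρ R z) {α : Finset (Fin n) → ℝ} {b M τ g : ℝ} {t : ℕ}
    (hm : Mix (1 / (1 - η - ρ)) t M α) (hM : 0 ≤ M) (hτ : Real.sqrt R.card * M ≤ τ)
    (hb : 0 ≤ b) (hG : 0 < weight α + b * cb) (hg : 0 < g) (hg1 : g ≤ 1) {ψ : Cube n → ℝ}
    (hψ0 : ∀ x, 0 ≤ ψ x) {E E' : ℝ} {v' : Cube n → ℝ} (h1 : ψ ⬝ᵥ ψ = 1)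
    (h2 : hamC α b C *ᵥ ψ = E • ψ)
    (h3 : ∀ w : Cube n → ℝ, w ⬝ᵥ ψ = 0 →
      (E + g * (weight α + b * cb)) * (w ⬝ᵥ w) ≤ w ⬝ᵥ hamC α b C *ᵥ w)
    (hv' : v' ⬝ᵥ v' = 1) (he' : hamC α b (flat η cb C) *ᵥ v' = E' • v')
    (hmin' : ∀ u : Cube n → ℝ, E' * (u ⬝ᵥ u) ≤ u ⬝ᵥ hamC α b (flat η cb C) *ᵥ u)
    (hD : E' - E < g / 4 * (weight α + b * cb)) :
    b * cb < 2 * weight α ∧ Out R M (τ / g) ψ ∧
      E' - E ≤ 6 * τ ^ 2 / g * (weight α + b * cb) := by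
  have hτ0 : 0 ≤ τ := le_trans (by positivity) hτ
  obtain ⟨G, hGdef⟩ : ∃ G, G = weight α + b * cb := ⟨_, rfl⟩
  rw [← hGdef] at hG h3 hD ⊢
  have hgG : 0 < g * G := mul_pos hg hG
  have hmin0 := Ground.min (hamC_symm α b C) hgG.le h1 h2 h3
  have hmin : ∀ u : Cube n → ℝ, E * (u ⬝ᵥ u) ≤ u ⬝ᵥ hamC α b C *ᵥ u := by
    intro u
    have h4 := hmin0 u
    have h5 := cs u ψ
    rw [h1, mul_one] at h5
    nlinarith
  have hτg : τ ≤ τ / g := by
    rw [le_div_iff₀ hg]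
    nlinarith
  have hbcb : 0 ≤ b * cb := mul_nonneg hb d.cb_pos.le
  have hs := d.small
  have hη := d.η_pos
  have hρ := d.ρ_pos
  have hw0 := weight_nonneg hm.nonneg
  -- the cost does not dominate
  have hreg : b * cb < 2 * weight α := by
    by_contra hc
    push Not at hc
    have h4 := d.energy_far hm.nonneg hb hmin hv' he'
    nlinarith
  have hw : 0 < weight α := by linarith
  obtain ⟨E1, φ, hφ1, hφ, hφmin, hφ0, hφM, hE1⟩ := d.deloc hm hM hb hw hreg.le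
  have hEE : E1 = E' := by
    apply le_antisymm
    · have h4 := hφmin v'
      rw [hv', he', dotProduct_smul, hv', smul_eq_mul, mul_one, mul_one] at h4
      exact h4
    · have h4 := hmin' φ
      rw [hφ1, hφ, dotProduct_smul, hφ1, smul_eq_mul, mul_one, mul_one] at h4
      exact h4
  rw [hEE] at hφ hφmin hE1
  obtain ⟨u, hu⟩ : ∃ u, u = φ ⬝ᵥ ψ := ⟨_, rfl⟩
  have hu0 : 0 ≤ u := by
    rw [hu]; unfold dotProduct
    exact sum_nonneg fun x _ => mul_nonneg (hφ0 x) (hψ0 x)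
  have hu1 : u ^ 2 ≤ 1 := by
    have := cs φ ψ
    rw [hφ1, h1, ← hu] at this
    linarith
  -- energy difference
  have hD1 : g * G * (1 - u ^ 2) ≤ E' - E := by
    have h4 := hmin0 φ
    rw [hφ1, ← hu] at h4
    have h5 := flat_energy d hb φ (α := α)
    rw [hφ, dotProduct_smul, hφ1, smul_eq_mul, mul_one] at h5
    linarith
  have hnφ : nR R φ ≤ τ := by
    refine (nR_of_bound hM fun x => ?_).trans hτ
    rw [abs_of_nonneg (hφ0 x)]
    exact hφM x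
  have hD2 : (E' - E) * u ≤ G * (τ * nR R ψ) := by
    have h4 := key α b E E' h2 hφ
    rw [← hu] at h4
    rw [h4]
    refine (le_abs_self _).trans ((d.inter hb φ ψ).trans ?_)
    have h5 : nR R φ * nR R ψ ≤ τ * nR R ψ := mul_le_mul_of_nonneg_right hnφ (nR_nonneg _ _)
    have h6 : b * cb ≤ G := by rw [hGdef]; linarith
    have h7 : 0 ≤ τ * nR R ψ := mul_nonneg hτ0 (nR_nonneg _ _)
    calc b * cb * (nR R φ * nR R ψ) ≤ b * cb * (τ * nR R ψ) :=
          mul_le_mul_of_nonneg_left h5 hbcb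
      _ ≤ _ := mul_le_mul_of_nonneg_right h6 h7
  have hcase : 3 / 4 ≤ u ^ 2 := by
    by_contra hc
    push Not at hc
    nlinarith
  obtain ⟨y, hy⟩ : ∃ y, y = Real.sqrt (1 - u ^ 2) := ⟨_, rfl⟩
  have hy0 : 0 ≤ y := by rw [hy]; exact Real.sqrt_nonneg _
  have hy2 : y ^ 2 = 1 - u ^ 2 := by rw [hy]; exact Real.sq_sqrt (by linarith)
  obtain ⟨ξ, hξ⟩ : ∃ ξ : Cube n → ℝ, ξ = ψ + (-u) • φ := ⟨_, rfl⟩
  have hξξ : ξ ⬝ᵥ ξ = y ^ 2 := by
    rw [hξ, norm_add, h1, hφ1, ← hu, hy2]; ring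
  have hψeq : ψ = u • φ + ξ := by
    rw [hξ]
    ext x
    simp
  have hu1' : u ≤ 1 := by nlinarith
  have hnψ : nR R ψ ≤ τ + y := by
    have h4 := nR_add R (u • φ) ξ
    rw [← hψeq, nR_smul, abs_of_nonneg hu0] at h4
    have h5 := nR_le R ξ
    rw [hξξ, Real.sqrt_sq hy0] at h5
    have h6 : u * nR R φ ≤ 1 * τ := mul_le_mul hu1' hnφ (nR_nonneg _ _) zero_le_one
    linarith
  have hu23 : 2 / 3 ≤ u := by nlinarith
  -- bound of y
  have h7 : g * y ^ 2 * (2 / 3) ≤ τ * (τ + y) := by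
    have h8 : G * (g * y ^ 2 * u) ≤ G * (τ * (τ + y)) := by
      calc G * (g * y ^ 2 * u) = g * G * (1 - u ^ 2) * u := by rw [hy2]; ring
        _ ≤ (E' - E) * u := mul_le_mul_of_nonneg_right hD1 hu0
        _ ≤ G * (τ * nR R ψ) := hD2
        _ ≤ G * (τ * (τ + y)) := by gcongr
    have h9 := le_of_mul_le_mul_left h8 hG
    have h10 : 0 ≤ g * y ^ 2 := by positivity
    nlinarith
  have hyb : y ≤ 3 * (τ / g) := by
    by_contra h
    push Not at h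
    have h8 : 3 * τ < g * y := by
      rw [← mul_div_assoc, div_lt_iff₀ hg] at h
      linarith
    have h9 : τ ≤ y / 3 := by nlinarith
    have hypos : 0 < y := lt_of_le_of_lt (by positivity) h
    nlinarith [mul_pos hypos hypos, mul_pos hg hypos]
  have hn4 : nR R ψ ≤ 4 * (τ / g) := by linarith
  refine ⟨hreg, ⟨⟨u • φ, ξ, hψeq, fun x => ?_, ?_⟩, hn4⟩, ?_⟩
  · simp only [Pi.smul_apply, smul_eq_mul]
    refine ⟨mul_nonneg hu0 (hφ0 x), ?_⟩
    have := hφM x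
    nlinarith [hφ0 x]
  · rw [hξξ]
    exact pow_le_pow_left₀ hy0 hyb 2
  · have hD0 : 0 ≤ E' - E := by
      have : 0 ≤ g * G * (1 - u ^ 2) := mul_nonneg hgG.le (by linarith)
      linarith
    have h8 : (E' - E) * (2 / 3) ≤ G * (τ * (4 * (τ / g))) := by
      calc (E' - E) * (2 / 3) ≤ (E' - E) * u := mul_le_mul_of_nonneg_left hu23 hD0
        _ ≤ G * (τ * nR R ψ) := hD2
        _ ≤ _ := by gcongr
    have h9 : G * (τ * (4 * (τ / g))) = (6 * τ ^ 2 / g * G) * (2 / 3) := by ring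
    rw [h9] at h8
    linarith

/-- ground states of the second kind -/
theorem Data.bad (d : Data C cb η ρ R z) {α : Finset (Fin n) → ℝ} {b M τ g : ℝ} {t : ℕ}
    (hm : Mix (1 / (1 - η - ρ)) t M α) (hMa : amp n ≤ M) (hτ : Real.sqrt R.card * M ≤ τ)
    (hb : 0 ≤ b) (hG : 0 < weight α + b * cb) (hg : 0 < g) (hg1 : g ≤ 1) {ψ : Cube n → ℝ}
    (hψ0 : ∀ x, 0 ≤ ψ x) {E E' : ℝ} (h1 : ψ ⬝ᵥ ψ = 1) (h2 : hamC α b C *ᵥ ψ = E • ψ)
    (hmin : ∀ u : Cube n → ℝ, E * (u ⬝ᵥ u) ≤ u ⬝ᵥ hamC α b C *ᵥ u)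
    (hmin' : ∀ u : Cube n → ℝ, E' * (u ⬝ᵥ u) ≤ u ⬝ᵥ hamC α b (flat η cb C) *ᵥ u)
    (hD : g / 4 * (weight α + b * cb) ≤ E' - E) :
    (fun _ => amp n) ⬝ᵥ ψ ≤ (t + 4) * (τ / g) := by
  have ha := amp_pos n
  have hM : 0 ≤ M := ha.le.trans hMa
  have hτ0 : 0 ≤ τ := le_trans (by positivity) hτ
  obtain ⟨G, hGdef⟩ : ∃ G, G = weight α + b * cb := ⟨_, rfl⟩
  rw [← hGdef] at hG hD
  have hgG : 0 < g * G := mul_pos hg hG
  have hτg : τ ≤ τ / g := by
    rw [le_div_iff₀ hg]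
    nlinarith
  have ht : (0 : ℝ) ≤ t := Nat.cast_nonneg t
  rcases lt_or_ge (2 * weight α) (b * cb) with hreg | hreg
  · have h4 := d.far_region hm.nonneg hb hreg h1 h2 hψ0 hmin
    have h5 : Real.sqrt R.card * amp n ≤ τ :=
      (mul_le_mul_of_nonneg_left hMa (Real.sqrt_nonneg _)).trans hτ
    have h6 : 0 ≤ τ / g := hτ0.trans hτg
    nlinarith
  · have hbcb : 0 ≤ b * cb := mul_nonneg hb d.cb_pos.le
    have hw : 0 < weight α := by
      by_contra h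
      push Not at h
      linarith
    have hE' := d.energy hb hmin'
    have hlt : E < E' := by nlinarith
    have h4 := d.resolvent hm hM hb hw hreg h1 h2 hmin' hlt hE'
    refine (le_abs_self _).trans (h4.trans ?_)
    have hD0 : 0 < E' - E := by linarith
    have h5 : 1 / (E' - E) ≤ 4 / (g * G) := by
      rw [div_le_div_iff₀ hD0 hgG]
      linarith
    have h6 : b * cb ≤ G := by rw [hGdef]; linarith
    have h7 : b * cb * (1 / (E' - E)) ≤ 4 / g := by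
      calc b * cb * (1 / (E' - E)) ≤ G * (4 / (g * G)) :=
            mul_le_mul h6 h5 (by positivity) hG.le
        _ = 4 / g := by field_simp
    have h8 : b * cb * (1 / (2 * weight α)) ≤ 1 := by
      rw [mul_one_div, div_le_one (by linarith)]
      exact hreg
    have h9 : b * cb * (Real.sqrt R.card * (M * (1 / (E' - E) + t * (1 / (2 * weight α))))) =
        (Real.sqrt R.card * M) * (b * cb * (1 / (E' - E)) +
          t * (b * cb * (1 / (2 * weight α)))) := by ring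
    rw [h9]
    have h10 : b * cb * (1 / (E' - E)) + t * (b * cb * (1 / (2 * weight α))) ≤ 4 / g + t := by
      nlinarith
    have h11 : (0 : ℝ) ≤ 4 / g + t := by positivity
    have h12 : (t : ℝ) ≤ t / g := by
      rw [le_div_iff₀ hg]
      nlinarith
    calc (Real.sqrt R.card * M) * (b * cb * (1 / (E' - E)) +
            t * (b * cb * (1 / (2 * weight α))))
        ≤ (Real.sqrt R.card * M) * (4 / g + t) :=
          mul_le_mul_of_nonneg_left h10 (mul_nonneg (Real.sqrt_nonneg _) hM)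
      _ ≤ τ * (4 / g + t) := mul_le_mul_of_nonneg_right hτ h11
      _ ≤ τ * ((t + 4) / g) := by
          refine mul_le_mul_of_nonneg_left ?_ hτ0
          have : (t + 4) / g = 4 / g + t / g := by ring
          rw [this]
          linarith
      _ = (t + 4) * (τ / g) := by ring

/-- overlap of a spread out state with a state that is almost orthogonal to the uniform one -/
theorem Out.overlap {M r s : ℝ} {ψ χ : Cube n → ℝ} (h : Out R M r ψ) (hr : 0 ≤ r)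
    (hχ0 : ∀ x, 0 ≤ χ x) (hχ1 : χ ⬝ᵥ χ = 1) (hM : 0 ≤ M)
    (hs : (fun _ => amp n) ⬝ᵥ χ ≤ s) : ψ ⬝ᵥ χ ≤ M / amp n * s + 3 * r := by
  obtain ⟨⟨φ, ξ, hψ, hφ, hξ⟩, -⟩ := h
  have ha := amp_pos n
  rw [hψ, add_dotProduct]
  have h1 : φ ⬝ᵥ χ ≤ M / amp n * s := by
    have h2 : φ ⬝ᵥ χ ≤ M / amp n * ((fun _ => amp n) ⬝ᵥ χ) := by
      unfold dotProduct
      rw [mul_sum]
      refine sum_le_sum fun x _ => ?_
      have : M / amp n * (amp n * χ x) = M * χ x := by field_simp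
      rw [this]
      exact mul_le_mul_of_nonneg_right (hφ x).2 (hχ0 x)
    exact h2.trans (mul_le_mul_of_nonneg_left hs (by positivity))
  have h2 : ξ ⬝ᵥ χ ≤ 3 * r := by
    have h3 := cs ξ χ
    rw [hχ1, mul_one] at h3
    exact (abs_le_of_sq_le_sq' (h3.trans hξ) (by positivity)).2
  linarith

end Pool.Agent.H73.QA
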