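import Pool.Agent.H73.QA.Walk

/-! Domination of ground states. -/

namespace Pool.Agent.H73.QA

open Finset Matrix

variable {n : ℕ}

/-- amplitude of the uniform superposition -/
noncomputable def amp (n : ℕ) : ℝ := (2 : ℝ) ^ (-(n : ℝ) / 2)

theorem amp_pos (n : ℕ) : 0 < amp n := by unfold amp; positivity

theorem amp_sq (n : ℕ) : amp n ^ 2 * 2 ^ n = 1 := by
  unfold amp
  rw [← Real.rpow_natCast ((2 : ℝ) ^ (-(n : ℝ) / 2)) 2, ← Real.rpow_mul (by norm_num),
    ← Real.rpow_natCast 2 n, ← Real.rpow_add (by norm_num)]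
  push_cast
  have : -(n : ℝ) / 2 * 2 + n = 0 := by ring
  rw [this, Real.rpow_zero]

theorem amp_norm (n : ℕ) : (fun _ : Cube n => amp n) ⬝ᵥ (fun _ => amp n) = 1 := by
  unfold dotProduct
  simp only [sum_const, card_univ, Fintype.card_fun, Fintype.card_bool, Fintype.card_fin,
    nsmul_eq_mul]
  push_cast
  have := amp_sq n
  linarith [sq (amp n)]

/-- iteration of the domination inequality -/
theorem iter_dom {α : Finset (Fin n) → ℝ} (hα : ∀ S, 0 ≤ α S) (hw : 0 < weight α) {q h : ℝ}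
    (hq : 1 ≤ q) (hh : 0 ≤ h) {f : Cube n → ℝ} (hf : ∀ x, f x ≤ q * (Lop α f x + h)) (t : ℕ) :
    ∀ x, f x ≤ q ^ t * ((Lop α)^[t] f x + t * h) := by
  induction t with
  | zero => intro x; simp
  | succ t ih =>
    intro x
    have h1 : Lop α f x ≤ Lop α (fun y => q ^ t * ((Lop α)^[t] f y + t * h)) x :=
      Lop_mono hα ih x
    have h2 : Lop α (fun y => q ^ t * ((Lop α)^[t] f y + t * h)) x =
        q ^ t * ((Lop α)^[t + 1] f x + t * h) := by
      have h3 : (fun y => q ^ t * ((Lop α)^[t] f y + t * h)) =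
          fun y => q ^ t * (Lop α)^[t] f y + (q ^ t * (t * h)) * (fun _ => (1 : ℝ)) y := by
        funext y; ring
      rw [h3, Lop_lin, Lop_const hw, Function.iterate_succ_apply']
      ring
    rw [h2] at h1
    have hqt : 1 ≤ q ^ t := one_le_pow₀ hq
    calc f x ≤ q * (Lop α f x + h) := hf x
      _ ≤ q * (q ^ t * ((Lop α)^[t + 1] f x + t * h) + h) := by
          refine mul_le_mul_of_nonneg_left (by linarith) (by linarith)
      _ ≤ q * (q ^ t * ((Lop α)^[t + 1] f x + t * h) + q ^ t * h) := by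
          refine mul_le_mul_of_nonneg_left ?_ (by linarith)
          nlinarith
      _ = q ^ (t + 1) * ((Lop α)^[t + 1] f x + (t + 1 : ℕ) * h) := by
          push_cast
          ring

/-- the mixing property that is used -/
structure Mix (q : ℝ) (t : ℕ) (M : ℝ) (α : Finset (Fin n) → ℝ) : Prop where
  nonneg : ∀ S, 0 ≤ α S
  bound : 0 < weight α → q ^ (2 * t) * ((∑ T, mu α T ^ (2 * t)) / 2 ^ n) ≤ M ^ 2

theorem mu_empty (α : Finset (Fin n) → ℝ) : mu α ∅ = 1 := by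
  unfold mu odd
  simp

theorem Mix.amp_le {q M : ℝ} {t : ℕ} {α : Finset (Fin n) → ℝ} (h : Mix q t M α) (hq : 1 ≤ q)
    (hM : 0 ≤ M) (hw : 0 < weight α) : q ^ t * amp n ≤ M := by
  have h1 : (1 : ℝ) ≤ ∑ T, mu α T ^ (2 * t) := by
    have h2 : mu α ∅ ^ (2 * t) ≤ ∑ T, mu α T ^ (2 * t) :=
      single_le_sum (f := fun T => mu α T ^ (2 * t)) (fun T _ => by
        rw [pow_mul]; positivity) (mem_univ ∅)
    rwa [mu_empty, one_pow] at h2
  refine abs_le_of_sq_le_sq' ?_ hM |>.2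
  have h3 := amp_sq n
  calc (q ^ t * amp n) ^ 2 = q ^ (2 * t) * (1 / 2 ^ n) := by
        have h4 : amp n ^ 2 = 1 / 2 ^ n := by
          field_simp
          linarith
        rw [mul_pow, h4, ← pow_mul, mul_comm t 2]
    _ ≤ q ^ (2 * t) * ((∑ T, mu α T ^ (2 * t)) / 2 ^ n) := by gcongr
    _ ≤ M ^ 2 := h.bound hw

/-- pointwise bound -/
theorem point_bound {α : Finset (Fin n) → ℝ} {q M h : ℝ} {t : ℕ} (hm : Mix q t M α)
    (hw : 0 < weight α) (hq : 1 ≤ q) (hM : 0 ≤ M) (hh : 0 ≤ h) {f : Cube n → ℝ}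
    (hf : ∀ x, f x ≤ q * (Lop α f x + h)) (x : Cube n) :
    f x ≤ M * (Real.sqrt (f ⬝ᵥ f) + t * (h / amp n)) := by
  have h1 := iter_dom hm.nonneg hw hq hh hf t x
  have h2 := Lop_bound hw f t x
  have h3 : q ^ t * (Lop α)^[t] f x ≤ M * Real.sqrt (f ⬝ᵥ f) := by
    refine abs_le_of_sq_le_sq' ?_ (mul_nonneg hM (Real.sqrt_nonneg _)) |>.2
    rw [mul_pow, mul_pow, Real.sq_sqrt (dot_self_nonneg f)]
    have h4 := hm.bound hw
    have h5 : (q ^ t) ^ 2 = q ^ (2 * t) := by rw [← pow_mul, mul_comm]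
    calc (q ^ t) ^ 2 * ((Lop α)^[t] f x) ^ 2
        ≤ (q ^ t) ^ 2 * ((∑ T, mu α T ^ (2 * t)) / 2 ^ n * (f ⬝ᵥ f)) :=
          mul_le_mul_of_nonneg_left h2 (by positivity)
      _ = (q ^ (2 * t) * ((∑ T, mu α T ^ (2 * t)) / 2 ^ n)) * (f ⬝ᵥ f) := by rw [h5]; ring
      _ ≤ M ^ 2 * (f ⬝ᵥ f) := mul_le_mul_of_nonneg_right h4 (dot_self_nonneg f)
  have h6 : q ^ t * (t * h) ≤ M * (t * (h / amp n)) := by
    have h7 := hm.amp_le hq hM hw
    have ha := amp_pos n
    have h8 : q ^ t * (t * h) = (q ^ t * amp n) * (t * (h / amp n)) := by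
      field_simp
    rw [h8]
    exact mul_le_mul_of_nonneg_right h7 (by positivity)
  calc f x ≤ q ^ t * ((Lop α)^[t] f x + t * h) := h1
    _ = q ^ t * (Lop α)^[t] f x + q ^ t * (t * h) := by ring
    _ ≤ M * Real.sqrt (f ⬝ᵥ f) + M * (t * (h / amp n)) := add_le_add h3 h6
    _ = _ := by ring

/-- nonnegative ground state -/
theorem nonneg_ground {α : Finset (Fin n) → ℝ} (hα : ∀ S, 0 ≤ α S) (b : ℝ) (C : Cube n → ℝ)
    {E : ℝ} {v : Cube n → ℝ} (hv1 : v ⬝ᵥ v = 1) (hv : hamC α b C *ᵥ v = E • v)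
    (hmin : ∀ u : Cube n → ℝ, E * (u ⬝ᵥ u) ≤ u ⬝ᵥ hamC α b C *ᵥ u) :
    (fun x => |v x|) ⬝ᵥ (fun x => |v x|) = 1 ∧
      hamC α b C *ᵥ (fun x => |v x|) = E • (fun x => |v x|) := by
  have h1 : (fun x => |v x|) ⬝ᵥ (fun x => |v x|) = 1 := by
    rw [← hv1]
    unfold dotProduct
    exact sum_congr rfl fun x _ => abs_mul_abs_self _
  refine ⟨h1, eig_of_min (hamC_symm α b C) hmin ?_⟩
  refine le_antisymm ?_ (hmin _)
  have h2 : v ⬝ᵥ hamC α b C *ᵥ v = E := by
    rw [hv, dotProduct_smul, hv1, smul_eq_mul, mul_one]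
  rw [h1, mul_one, ← h2, hamC_quad, hamC_quad]
  have h3 : ∑ x, b * C x * (|v x| * |v x|) = ∑ x, b * C x * (v x * v x) :=
    sum_congr rfl fun x _ => by rw [abs_mul_abs_self]
  rw [h3]
  have h4 : ∑ x, v x * Aop α v x ≤ ∑ x, |v x| * Aop α (fun x => |v x|) x := by
    refine sum_le_sum fun x _ => ?_
    unfold Aop
    rw [mul_sum, mul_sum]
    refine sum_le_sum fun y _ => ?_
    have h5 : v x * v y ≤ |v x| * |v y| := by
      rw [← abs_mul]; exact le_abs_self _
    calc v x * (α (diff x y) * v y) = α (diff x y) * (v x * v y) := by ring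
      _ ≤ α (diff x y) * (|v x| * |v y|) := mul_le_mul_of_nonneg_left h5 (hα _)
      _ = _ := by ring
  linarith

/-- data of a cost function with a needle -/
structure Data (C : Cube n → ℝ) (cb η ρ : ℝ) (R : Finset (Cube n)) (z : Cube n) : Prop where
  cb_pos : 0 < cb
  nonneg : ∀ x, 0 ≤ C x
  zero : C z = 0
  mean : ∑ x, C x = cb * 2 ^ n
  far : ∀ x, x ∉ R → (1 - η) * cb ≤ C x
  card : (R.card : ℝ) ≤ ρ * 2 ^ n
  η_pos : 0 < η
  ρ_pos : 0 < ρ
  small : η + ρ ≤ 1 / 16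

/-- flattened cost -/
noncomputable def flat (η cb : ℝ) (C : Cube n → ℝ) (x : Cube n) : ℝ := max (C x) ((1 - η) * cb)

variable {C : Cube n → ℝ} {cb η ρ : ℝ} {R : Finset (Cube n)} {z : Cube n}

theorem Data.flat_sub (d : Data C cb η ρ R z) (x : Cube n) :
    0 ≤ flat η cb C x - C x ∧ flat η cb C x - C x ≤ (if x ∈ R then cb else 0) := by
  unfold flat
  refine ⟨by linarith [le_max_left (C x) ((1 - η) * cb)], ?_⟩
  by_cases h : x ∈ R
  · rw [if_pos h]
    have h1 := d.nonneg x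
    have h2 : (1 - η) * cb ≤ cb := by nlinarith [d.cb_pos, d.η_pos]
    rcases max_cases (C x) ((1 - η) * cb) with ⟨h3, _⟩ | ⟨h3, _⟩ <;> rw [h3]
    · linarith [d.cb_pos]
    · linarith
  · rw [if_neg h, max_eq_left (d.far x h)]
    linarith

theorem Data.flat_ge (x : Cube n) : (1 - η) * cb ≤ flat η cb C x := le_max_right _ _

theorem const_quad (α : Finset (Fin n) → ℝ) (b : ℝ) (C : Cube n → ℝ) :
    (fun _ => amp n) ⬝ᵥ hamC α b C *ᵥ (fun _ => amp n) =
      b * (∑ x, C x) / 2 ^ n - weight α := by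
  rw [hamC_quad]
  simp only [Aop_const, sum_const, card_univ, Fintype.card_fun, Fintype.card_bool,
    Fintype.card_fin, nsmul_eq_mul]
  push_cast
  have h := amp_sq n
  have h1 : ∑ x, b * C x * (amp n * amp n) = b * (∑ x, C x) * (amp n ^ 2) := by
    rw [mul_sum, sum_mul]
    exact sum_congr rfl fun x _ => by ring
  have h2 : amp n ^ 2 = 1 / 2 ^ n := by
    field_simp
    linarith
  rw [h1, h2]
  have h3 : (2 : ℝ) ^ n * (amp n * (weight α * amp n)) = weight α * (amp n ^ 2 * 2 ^ n) := by ring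
  rw [h3, h]
  ring

/-- upper bound for the lowest energy of the flattened Hamiltonian -/
theorem Data.energy (d : Data C cb η ρ R z) {α : Finset (Fin n) → ℝ} {b : ℝ} (hb : 0 ≤ b)
    {E' : ℝ} (hmin : ∀ u : Cube n → ℝ, E' * (u ⬝ᵥ u) ≤ u ⬝ᵥ hamC α b (flat η cb C) *ᵥ u) :
    E' ≤ -weight α + b * cb * (1 + ρ) := by
  have h1 := hmin (fun _ => amp n)
  rw [amp_norm, mul_one, const_quad] at h1
  have h2 : ∑ x, flat η cb C x ≤ cb * 2 ^ n + R.card * cb := by
    have h3 : ∑ x, (flat η cb C x - C x) ≤ ∑ x, (if x ∈ R then cb else 0) :=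
      sum_le_sum fun x _ => (d.flat_sub x).2
    rw [sum_sub_distrib, d.mean, sum_ite_mem, univ_inter, sum_const, nsmul_eq_mul] at h3
    linarith
  have h4 : ∑ x, flat η cb C x ≤ cb * (1 + ρ) * 2 ^ n := by
    have := mul_le_mul_of_nonneg_right d.card d.cb_pos.le
    nlinarith
  have h5 : b * (∑ x, flat η cb C x) / 2 ^ n ≤ b * (cb * (1 + ρ)) := by
    rw [div_le_iff₀ (by positivity)]
    have := mul_le_mul_of_nonneg_left h4 hb
    nlinarith
  linarith

/-- the domination inequality -/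
theorem Data.dom (d : Data C cb η ρ R z) {α : Finset (Fin n) → ℝ} {b : ℝ} (hb : 0 ≤ b)
    (hw : 0 < weight α) (hreg : b * cb ≤ 2 * weight α) {E' : ℝ}
    (hE : E' ≤ -weight α + b * cb * (1 + ρ)) {f : Cube n → ℝ} (hf0 : ∀ x, 0 ≤ f x) {h : ℝ}
    (hf : ∀ x, (b * flat η cb C x - E') * f x ≤ Aop α f x + h) (x : Cube n) :
    f x ≤ 1 / (1 - η - ρ) * (Lop α f x + h / (2 * weight α)) := by
  have hs := d.small
  have hpos : 0 < 1 - η - ρ := by linarith
  have h1 := hf x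
  have h2 : 2 * weight α * (1 - η - ρ) ≤ b * flat η cb C x - E' + weight α := by
    have h3 := mul_le_mul_of_nonneg_left (Data.flat_ge (C := C) (cb := cb) (η := η) x) hb
    have h4 : b * cb * (η + ρ) ≤ 2 * weight α * (η + ρ) :=
      mul_le_mul_of_nonneg_right hreg (by linarith [d.η_pos, d.ρ_pos])
    nlinarith
  have h5 : 2 * weight α * (1 - η - ρ) * f x ≤ Aop α f x + h + weight α * f x := by
    calc 2 * weight α * (1 - η - ρ) * f x
        ≤ (b * flat η cb C x - E' + weight α) * f x := mul_le_mul_of_nonneg_right h2 (hf0 x)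
      _ = (b * flat η cb C x - E') * f x + weight α * f x := by ring
      _ ≤ _ := by linarith
  unfold Lop
  rw [← add_div, div_mul_div_comm, one_mul, le_div_iff₀ (by positivity)]
  linarith

end Pool.Agent.H73.QA
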