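import Pool.Agent.H73.QA.Stmt

/-! Linear algebra of real symmetric matrices. -/

namespace Pool.Agent.H73.QA

open Finset Matrix

variable {X : Type} [Fintype X]

theorem dot_self_nonneg (v : X → ℝ) : 0 ≤ v ⬝ᵥ v := by
  unfold dotProduct
  exact sum_nonneg fun i _ => mul_self_nonneg _

theorem dot_self_eq_zero {v : X → ℝ} (h : v ⬝ᵥ v = 0) : v = 0 := by
  funext i
  unfold dotProduct at h
  have := (sum_eq_zero_iff_of_nonneg fun i _ => mul_self_nonneg (v i)).1 h i (mem_univ i)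
  simpa using this

theorem sym_dot {H : Matrix X X ℝ} (hH : Hᵀ = H) (v w : X → ℝ) :
    v ⬝ᵥ H *ᵥ w = w ⬝ᵥ H *ᵥ v := by
  rw [dotProduct_mulVec, ← mulVec_transpose, hH, dotProduct_comm]

theorem quad_add {H : Matrix X X ℝ} (hH : Hᵀ = H) (v w : X → ℝ) (t : ℝ) :
    (v + t • w) ⬝ᵥ H *ᵥ (v + t • w) =
      v ⬝ᵥ H *ᵥ v + 2 * t * (w ⬝ᵥ H *ᵥ v) + t ^ 2 * (w ⬝ᵥ H *ᵥ w) := by
  rw [mulVec_add, mulVec_smul, dotProduct_add, add_dotProduct, add_dotProduct,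
    dotProduct_smul, dotProduct_smul, smul_dotProduct, smul_dotProduct, sym_dot hH v w]
  simp only [smul_eq_mul]
  ring

theorem norm_add (v w : X → ℝ) (t : ℝ) :
    (v + t • w) ⬝ᵥ (v + t • w) = v ⬝ᵥ v + 2 * t * (w ⬝ᵥ v) + t ^ 2 * (w ⬝ᵥ w) := by
  rw [dotProduct_add, add_dotProduct, add_dotProduct, dotProduct_smul, dotProduct_smul,
    smul_dotProduct, smul_dotProduct, dotProduct_comm v w]
  simp only [smul_eq_mul]
  ring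

/-- a vector attaining the minimum of the Rayleigh quotient is an eigenvector -/
theorem eig_of_min {H : Matrix X X ℝ} (hH : Hᵀ = H) {E : ℝ} {v : X → ℝ}
    (hmin : ∀ u : X → ℝ, E * (u ⬝ᵥ u) ≤ u ⬝ᵥ H *ᵥ u) (hv : v ⬝ᵥ H *ᵥ v = E * (v ⬝ᵥ v)) :
    H *ᵥ v = E • v := by
  obtain ⟨w, hw⟩ : ∃ w : X → ℝ, w = H *ᵥ v - E • v := ⟨_, rfl⟩
  obtain ⟨Q, hQ⟩ : ∃ Q : ℝ, Q = w ⬝ᵥ H *ᵥ w - E * (w ⬝ᵥ w) := ⟨_, rfl⟩
  have hQ0 : 0 ≤ Q := by rw [hQ]; linarith [hmin w]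
  have h1 : ∀ t : ℝ, 0 ≤ 2 * t * (w ⬝ᵥ w) + t ^ 2 * Q := by
    intro t
    have h2 := hmin (v + t • w)
    rw [quad_add hH, norm_add] at h2
    have h3 : w ⬝ᵥ w = w ⬝ᵥ H *ᵥ v - E * (w ⬝ᵥ v) := by
      conv_lhs => rw [hw]
      rw [sub_dotProduct, smul_dotProduct, smul_eq_mul, dotProduct_comm (H *ᵥ v) (H *ᵥ v - E • v),
        ← hw, dotProduct_comm v w]
    have h4 : 2 * t * (w ⬝ᵥ w) = 2 * t * (w ⬝ᵥ H *ᵥ v) - E * (2 * t * (w ⬝ᵥ v)) := by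
      rw [h3]; ring
    rw [h4, hQ]
    linarith
  have h5 : w ⬝ᵥ w = 0 := by
    by_contra hne
    have hpos : 0 < w ⬝ᵥ w := lt_of_le_of_ne (dot_self_nonneg w) (Ne.symm hne)
    have h6 := h1 (-(w ⬝ᵥ w) / (Q + 1))
    have hQ1 : 0 < Q + 1 := by linarith
    have h7 : 2 * (-(w ⬝ᵥ w) / (Q + 1)) * (w ⬝ᵥ w) + (-(w ⬝ᵥ w) / (Q + 1)) ^ 2 * Q =
        (w ⬝ᵥ w) ^ 2 * (-(2 * (Q + 1)) + Q) / (Q + 1) ^ 2 := by
      field_simp
    rw [h7] at h6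
    have h8 : (w ⬝ᵥ w) ^ 2 * (-(2 * (Q + 1)) + Q) / (Q + 1) ^ 2 < 0 := by
      apply div_neg_of_neg_of_pos _ (by positivity)
      apply mul_neg_of_pos_of_neg (by positivity)
      linarith
    linarith
  have h9 := dot_self_eq_zero h5
  rw [hw] at h9
  exact sub_eq_zero.1 h9

/-- lowest eigenvalue -/
theorem min_eig [Nonempty X] [DecidableEq X] {H : Matrix X X ℝ} (hH : Hᵀ = H) :
    ∃ (E : ℝ) (v : X → ℝ), v ⬝ᵥ v = 1 ∧ H *ᵥ v = E • v ∧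
      ∀ u : X → ℝ, E * (u ⬝ᵥ u) ≤ u ⬝ᵥ H *ᵥ u := by
  have hcont1 : Continuous fun u : X → ℝ => u ⬝ᵥ u := by
    unfold dotProduct
    fun_prop
  have hcont2 : Continuous fun u : X → ℝ => u ⬝ᵥ H *ᵥ u := by
    unfold mulVec dotProduct
    fun_prop
  have hclosed : IsClosed {u : X → ℝ | u ⬝ᵥ u = 1} := isClosed_eq hcont1 continuous_const
  have hbdd : Bornology.IsBounded {u : X → ℝ | u ⬝ᵥ u = 1} := by
    refine (Metric.isBounded_closedBall (x := (0 : X → ℝ)) (r := 1)).subset fun u hu => ?_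
    rw [mem_closedBall_zero_iff, pi_norm_le_iff_of_nonneg zero_le_one]
    intro i
    have h1 : u i * u i ≤ 1 := by
      have h2 : u ⬝ᵥ u = 1 := hu
      rw [← h2]
      unfold dotProduct
      exact single_le_sum (f := fun j => u j * u j) (fun j _ => mul_self_nonneg _) (mem_univ i)
    rw [Real.norm_eq_abs, abs_le]
    constructor <;> nlinarith
  have hcomp := Metric.isCompact_of_isClosed_isBounded hclosed hbdd
  have hne : {u : X → ℝ | u ⬝ᵥ u = 1}.Nonempty := by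
    refine ⟨Pi.single (Classical.arbitrary X) 1, ?_⟩
    change (Pi.single (Classical.arbitrary X) (1 : ℝ) : X → ℝ) ⬝ᵥ Pi.single _ 1 = 1
    simp
  obtain ⟨v, hv, hvmin⟩ := hcomp.exists_isMinOn hne hcont2.continuousOn
  have hv1 : v ⬝ᵥ v = 1 := hv
  have hmin : ∀ u : X → ℝ, (v ⬝ᵥ H *ᵥ v) * (u ⬝ᵥ u) ≤ u ⬝ᵥ H *ᵥ u := by
    intro u
    rcases eq_or_ne (u ⬝ᵥ u) 0 with h | h
    · rw [dot_self_eq_zero h]
      simp
    · have hpos : 0 < u ⬝ᵥ u := lt_of_le_of_ne (dot_self_nonneg u) (Ne.symm h)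
      obtain ⟨r, hr⟩ : ∃ r : ℝ, r = (Real.sqrt (u ⬝ᵥ u))⁻¹ := ⟨_, rfl⟩
      have hr2 : r * r * (u ⬝ᵥ u) = 1 := by
        rw [hr]
        have := Real.mul_self_sqrt hpos.le
        have hs : Real.sqrt (u ⬝ᵥ u) ≠ 0 := (Real.sqrt_pos.2 hpos).ne'
        field_simp
        nlinarith
      have h1 : (r • u) ⬝ᵥ (r • u) = 1 := by
        rw [dotProduct_smul, smul_dotProduct, smul_eq_mul, smul_eq_mul, ← hr2]
        ring
      have h2 := hvmin (show r • u ∈ {u : X → ℝ | u ⬝ᵥ u = 1} from h1)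
      simp only [Set.mem_ofPred_eq] at h2
      have h3 : (r • u) ⬝ᵥ H *ᵥ (r • u) = r * r * (u ⬝ᵥ H *ᵥ u) := by
        rw [mulVec_smul, dotProduct_smul, smul_dotProduct, smul_eq_mul, smul_eq_mul]
        ring
      rw [h3] at h2
      have h4 : (v ⬝ᵥ H *ᵥ v) * (u ⬝ᵥ u) ≤ (r * r * (u ⬝ᵥ H *ᵥ u)) * (u ⬝ᵥ u) :=
        mul_le_mul_of_nonneg_right h2 hpos.le
      calc (v ⬝ᵥ H *ᵥ v) * (u ⬝ᵥ u) ≤ (r * r * (u ⬝ᵥ H *ᵥ u)) * (u ⬝ᵥ u) := h4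
        _ = (r * r * (u ⬝ᵥ u)) * (u ⬝ᵥ H *ᵥ u) := by ring
        _ = u ⬝ᵥ H *ᵥ u := by rw [hr2, one_mul]
  exact ⟨v ⬝ᵥ H *ᵥ v, v, hv1, eig_of_min hH hmin (by rw [hv1, mul_one]), hmin⟩

/-- Cauchy-Schwarz -/
theorem cs (v w : X → ℝ) : (v ⬝ᵥ w) ^ 2 ≤ (v ⬝ᵥ v) * (w ⬝ᵥ w) := by
  have h := sum_mul_sq_le_sq_mul_sq univ v w
  unfold dotProduct
  calc (∑ i, v i * w i) ^ 2 ≤ (∑ i, v i ^ 2) * ∑ i, w i ^ 2 := h
    _ = _ := by
      congr 1 <;> exact sum_congr rfl fun i _ => by ring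

end Pool.Agent.H73.QA
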