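import Pool.Agent.H73.QA.Rand

/-! The statement on random formulas. -/

namespace Pool.Agent.H73.QA

open Finset Matrix

theorem two_pow_le_exp (n : ℕ) : (2 : ℝ) ^ n ≤ Real.exp n := by
  have h6 : (2 : ℝ) ≤ Real.exp 1 := by
    have := Real.add_one_le_exp (1 : ℝ)
    linarith
  calc (2 : ℝ) ^ n ≤ Real.exp 1 ^ n := pow_le_pow_left₀ (by norm_num) h6 n
    _ = _ := by rw [← Real.exp_nat_mul, mul_one]

theorem bad_count {n k m : ℕ} {ε η : ℝ} (hε0 : 0 ≤ ε) (hε : ε ≤ 1) (hη0 : 0 < η) (hη : η ≤ 1)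
    (hk : (1 - ε) ^ k ≤ η / 2) (hm : 16 * 2 ^ k / η ^ 2 * n ≤ m) (z : Cube n) :
    (((Fintype.piFinset fun _ : Fin m => sat k z).filter fun F => ∃ x, x ∉ hball ε z ∧
      (viol F x : ℝ) < (1 - η) * (m / 2 ^ k)).card : ℝ) ≤
        (Fintype.piFinset fun _ : Fin m => sat k z).card / 2 ^ n := by
  classical
  obtain ⟨A, hA⟩ : ∃ A, A = sat k z := ⟨_, rfl⟩
  obtain ⟨P, hP⟩ : ∃ P : Finset (Fin m → Clause n k), P = Fintype.piFinset fun _ => A := ⟨_, rfl⟩
  rw [← hA, ← hP]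
  have hPc : (P.card : ℝ) = (A.card : ℝ) ^ m := by
    rw [hP, Fintype.card_piFinset]
    simp
  have h1 : (P.filter fun F => ∃ x, x ∉ hball ε z ∧ (viol F x : ℝ) < (1 - η) * (m / 2 ^ k)) ⊆
      (univ.filter fun x => x ∉ hball ε z).biUnion fun x =>
        P.filter fun F => (viol F x : ℝ) < (1 - η) * (m / 2 ^ k) := by
    intro F hF
    rw [mem_filter] at hF
    obtain ⟨hF1, x, hx1, hx2⟩ := hF
    rw [mem_biUnion]
    exact ⟨x, by simpa using hx1, by rw [mem_filter]; exact ⟨hF1, hx2⟩⟩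
  have h2 : ∀ x ∈ univ.filter fun x => x ∉ hball ε z,
      ((P.filter fun F => (viol F x : ℝ) < (1 - η) * (m / 2 ^ k)).card : ℝ) ≤
        (A.card : ℝ) ^ m * Real.exp (-(m / 2 ^ k) * (η ^ 2 / 8)) := by
    intro x hx
    simp only [mem_filter, mem_univ, true_and, hball, not_le] at hx
    rw [hP]
    refine tail hη0 hη A x ?_
    have h3 := frac (k := k) hε0 hε x z hx.le
    rw [← hA] at h3
    refine le_trans ?_ h3
    exact mul_le_mul_of_nonneg_right (by linarith) (Nat.cast_nonneg _)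
  have h3 : ((P.filter fun F => ∃ x, x ∉ hball ε z ∧
      (viol F x : ℝ) < (1 - η) * (m / 2 ^ k)).card : ℝ) ≤
        2 ^ n * ((A.card : ℝ) ^ m * Real.exp (-(m / 2 ^ k) * (η ^ 2 / 8))) := by
    calc _ ≤ (((univ.filter fun x => x ∉ hball ε z).biUnion fun x =>
          P.filter fun F => (viol F x : ℝ) < (1 - η) * (m / 2 ^ k)).card : ℝ) := by
            exact_mod_cast card_le_card h1
      _ ≤ ∑ x ∈ univ.filter fun x => x ∉ hball ε z,
          ((P.filter fun F => (viol F x : ℝ) < (1 - η) * (m / 2 ^ k)).card : ℝ) := by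
            exact_mod_cast card_biUnion_le
      _ ≤ ∑ _x ∈ univ.filter fun x => x ∉ hball ε z,
          (A.card : ℝ) ^ m * Real.exp (-(m / 2 ^ k) * (η ^ 2 / 8)) := sum_le_sum h2
      _ = ((univ.filter fun x => x ∉ hball ε z).card : ℝ) *
          ((A.card : ℝ) ^ m * Real.exp (-(m / 2 ^ k) * (η ^ 2 / 8))) := by
            rw [sum_const, nsmul_eq_mul]
      _ ≤ _ := by
            refine mul_le_mul_of_nonneg_right ?_ (by positivity)
            have : (univ.filter fun x => x ∉ hball ε z).card ≤ 2 ^ n := by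
              refine (card_le_univ _).trans (le_of_eq ?_)
              simp
            exact_mod_cast this
  have h4 : Real.exp (-(m / 2 ^ k) * (η ^ 2 / 8)) ≤ 1 / (2 ^ n * 2 ^ n) := by
    have h5 : (2 * n : ℝ) ≤ m / 2 ^ k * (η ^ 2 / 8) := by
      rw [div_mul_eq_mul_div, div_le_iff₀ (by positivity)] at hm
      have h6 : (m : ℝ) / 2 ^ k * (η ^ 2 / 8) = m * η ^ 2 / (8 * 2 ^ k) := by
        field_simp
      rw [h6, le_div_iff₀ (by positivity)]
      linarith
    have h6 : (2 : ℝ) ^ n * 2 ^ n ≤ Real.exp (m / 2 ^ k * (η ^ 2 / 8)) := by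
      calc (2 : ℝ) ^ n * 2 ^ n ≤ Real.exp n * Real.exp n :=
            mul_le_mul (two_pow_le_exp n) (two_pow_le_exp n) (by positivity) (Real.exp_nonneg _)
        _ = Real.exp (2 * n) := by rw [← Real.exp_add]; congr 1; ring
        _ ≤ _ := Real.exp_le_exp.2 h5
    have h7 : -((m : ℝ) / 2 ^ k) * (η ^ 2 / 8) = -(m / 2 ^ k * (η ^ 2 / 8)) := by ring
    rw [h7, Real.exp_neg, one_div]
    exact inv_anti₀ (by positivity) h6
  refine h3.trans ?_
  rw [hPc]
  calc (2 : ℝ) ^ n * ((A.card : ℝ) ^ m * Real.exp (-(m / 2 ^ k) * (η ^ 2 / 8)))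
      ≤ 2 ^ n * ((A.card : ℝ) ^ m * (1 / (2 ^ n * 2 ^ n))) := by gcongr
    _ = _ := by field_simp

theorem part (e : ℝ) (he : 0 < e) : ∃ ε : ℝ, 0 < ε ∧ ε < 1 / 2 ∧
    ∀ γ ζ : ℝ, 0 < γ → 0 < ζ → ∃ k₀ : ℕ, ∀ k ≥ k₀, ∃ c n₀ : ℕ, ∀ n ≥ n₀, ∀ m ≥ c * n,
      ∀ z : Cube n,
        (Nat.card {F : Fin m → Clause n k // viol F z = 0 ∧ ¬ Hard e ε γ ζ F} : ℝ) ≤
          Nat.card {F : Fin m → Clause n k // viol F z = 0} / 2 ^ n := by
  obtain ⟨β, hβ⟩ : ∃ β : ℝ, β = min e (1 / 4) := ⟨_, rfl⟩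
  have hβ0 : 0 < β := by rw [hβ]; exact lt_min he (by norm_num)
  have hβe : β ≤ e := by rw [hβ]; exact min_le_left _ _
  have hβ4 : β ≤ 1 / 4 := by rw [hβ]; exact min_le_right _ _
  obtain ⟨ε, hε0, hε4, hball'⟩ := ball (β := β / 8) (by positivity)
  refine ⟨ε, hε0, by linarith, fun γ ζ hγ hζ => ?_⟩
  obtain ⟨η, hη⟩ : ∃ η : ℝ, η = min (min (γ * β / 100) (1 / 64)) (ζ / 2) := ⟨_, rfl⟩
  have hη0 : 0 < η := by
    rw [hη]; exact lt_min (lt_min (by positivity) (by norm_num)) (by positivity)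
  have hηγ : η ≤ γ * β / 100 := by rw [hη]; exact (min_le_left _ _).trans (min_le_left _ _)
  have hη64 : η ≤ 1 / 64 := by rw [hη]; exact (min_le_left _ _).trans (min_le_right _ _)
  have hηζ : η < ζ := by
    have : η ≤ ζ / 2 := by rw [hη]; exact min_le_right _ _
    linarith
  obtain ⟨k₀, hk₀⟩ := exists_pow_lt_of_lt_one (show 0 < η / 2 by positivity)
    (show 1 - ε < 1 by linarith)
  refine ⟨k₀, fun k hk => ?_⟩
  have hk' : (1 - ε) ^ k ≤ η / 2 :=
    (pow_le_pow_of_le_one (by linarith) (by linarith) hk).trans hk₀.le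
  obtain ⟨N1, hN1⟩ := lin_le_exp (c := β / 2) (by positivity) (A := 9 * (1 / γ + 6))
    (by positivity)
  obtain ⟨N2, hN2⟩ := lin_le_exp (c := 1 / 2) (by norm_num) (A := 1 / η) (by positivity)
  refine ⟨⌈16 * 2 ^ k / η ^ 2⌉₊, N1 + N2 + 1, fun n hn m hm z => ?_⟩
  have hn0 : (0 : ℝ) ≤ n := Nat.cast_nonneg n
  have e1 := hN1 n (by omega)
  have e2 := hN2 n (by omega)
  have hmn : 16 * 2 ^ k / η ^ 2 * n ≤ (m : ℝ) := by
    have h1 := Nat.le_ceil (16 * 2 ^ k / η ^ 2)
    calc 16 * 2 ^ k / η ^ 2 * n ≤ (⌈16 * 2 ^ k / η ^ 2⌉₊ : ℝ) * n :=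
          mul_le_mul_of_nonneg_right h1 hn0
      _ ≤ m := by exact_mod_cast hm
  have hn1 : (1 : ℝ) ≤ n := by
    have : 1 ≤ n := by omega
    exact_mod_cast this
  have hm0 : (0 : ℝ) < m := lt_of_lt_of_le (by positivity) hmn
  have hcb : (0 : ℝ) < m / 2 ^ k := by positivity
  have ha := amp_pos n
  have hasq : amp n ^ 2 = 1 / 2 ^ n := by
    have := amp_sq n
    field_simp
    linarith
  obtain ⟨t, ht⟩ : ∃ t : ℕ, t = ⌈n / γ⌉₊ := ⟨_, rfl⟩
  have ht1 : n ≤ γ * t := by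
    have h1 := Nat.le_ceil (n / γ)
    rw [← ht, div_le_iff₀ hγ] at h1
    linarith
  have ht2 : (t : ℝ) ≤ n / γ + 1 := by
    rw [ht]
    exact (Nat.ceil_lt_add_one (by positivity)).le
  obtain ⟨B, hB⟩ : ∃ B : ℝ, B = (2 : ℝ) ^ (β / 8 * n) := ⟨_, rfl⟩
  obtain ⟨B', hB'⟩ : ∃ B' : ℝ, B' = (2 : ℝ) ^ (β / 16 * n) := ⟨_, rfl⟩
  have hBB : B = B' * B' := by
    rw [hB, hB', ← Real.rpow_add (by norm_num)]
    congr 1
    ring
  have hB'1 : 1 ≤ B' := by
    rw [hB']
    exact Real.one_le_rpow (by norm_num) (by positivity)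
  have hB1 : 1 ≤ B := by rw [hBB]; nlinarith
  have hballn := hball' n
  rw [← hB] at hballn
  obtain ⟨R, hR⟩ : ∃ R, R = hball ε z := ⟨_, rfl⟩
  have hRB : (R.card : ℝ) ≤ B := by
    rw [hR]
    refine le_trans ?_ hballn
    exact_mod_cast card_hball ε z
  have hsR : Real.sqrt R.card ≤ B' := by
    rw [Real.sqrt_le_left (by linarith), sq, ← hBB]
    exact hRB
  obtain ⟨M, hM⟩ : ∃ M : ℝ, M = 3 * B * amp n := ⟨_, rfl⟩
  obtain ⟨τ, hτ⟩ : ∃ τ : ℝ, τ = 3 * (B' * B) * amp n := ⟨_, rfl⟩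
  have hM0 : 0 ≤ M := by rw [hM]; positivity
  have hMa : amp n ≤ M := by rw [hM]; nlinarith
  have hMamp : M / amp n = 3 * B := by rw [hM]; field_simp
  have hτ0 : 0 < τ := by rw [hτ]; positivity
  have hRM : Real.sqrt R.card * M ≤ τ := by
    calc Real.sqrt R.card * M ≤ B' * M := mul_le_mul_of_nonneg_right hsR hM0
      _ = τ := by rw [hM, hτ]; ring
  -- mixing
  have hq : (1 / (1 - η - η)) ^ (2 * t) ≤ 2 * B := by
    have h1 : 1 / (1 - η - η) ≤ Real.exp (4 * η) := by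
      rw [div_le_iff₀ (by linarith)]
      have h2 := Real.add_one_le_exp (4 * η)
      have h3 : 1 ≤ (4 * η + 1) * (1 - η - η) := by nlinarith
      exact h3.trans (mul_le_mul_of_nonneg_right h2 (by linarith))
    have h2 : (1 / (1 - η - η)) ^ (2 * t) ≤ Real.exp (4 * η) ^ (2 * t) :=
      pow_le_pow_left₀ (by rw [one_div, inv_nonneg]; linarith) h1 _
    refine h2.trans ?_
    rw [← Real.exp_nat_mul]
    have h3 : 2 * B = Real.exp (Real.log 2 + Real.log 2 * (β / 8 * n)) := by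
      rw [Real.exp_add, Real.exp_log (by norm_num), hB, Real.rpow_def_of_pos (by norm_num)]
    rw [h3, Real.exp_le_exp]
    push_cast
    have h4 := Real.log_two_gt_d9
    have h5 : η * t ≤ γ * β / 100 * (n / γ) + η := by
      calc η * t ≤ η * (n / γ + 1) := mul_le_mul_of_nonneg_left ht2 hη0.le
        _ = η * (n / γ) + η := by ring
        _ ≤ γ * β / 100 * (n / γ) + η := by
          have : 0 ≤ (n : ℝ) / γ := by positivity
          nlinarith [mul_le_mul_of_nonneg_right hηγ this]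
    have h6 : γ * β / 100 * (n / γ) = β * n / 100 := by field_simp
    rw [h6] at h5
    have h7 : 0 ≤ β * n := by positivity
    nlinarith
  have hmix : ∀ α : Finset (Fin n) → ℝ, Driver ε γ α → Mix (1 / (1 - η - η)) t M α := by
    intro α hd
    refine mix_of_driver ht1 (by rw [one_div, inv_nonneg]; linarith) hballn ?_ hd
    calc (1 / (1 - η - η)) ^ (2 * t) * ((2 * B + 1) / 2 ^ n)
        ≤ 2 * B * ((3 * B) / 2 ^ n) := by
          refine mul_le_mul hq ?_ (by positivity) (by positivity)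
          exact div_le_div_of_nonneg_right (by linarith) (by positivity)
      _ ≤ (3 * B) ^ 2 * (1 / 2 ^ n) := by
          rw [← mul_div_assoc, mul_one_div]
          refine div_le_div_of_nonneg_right ?_ (by positivity)
          nlinarith
      _ = M ^ 2 := by rw [hM, mul_pow (3 * B), hasq]
  -- the target
  have hWW : (2 : ℝ) ^ (β * n) * amp n ≤ (2 : ℝ) ^ (-(1 / 2 - e) * n) := by
    unfold amp
    rw [← Real.rpow_add (by norm_num)]
    refine Real.rpow_le_rpow_of_exponent_le (by norm_num) ?_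
    nlinarith
  have hW : (M / amp n * (t + 4) + 3) * τ ≤ (2 : ℝ) ^ (-(1 / 2 - e) * n) := by
    refine le_trans ?_ hWW
    rw [hMamp, hτ]
    have h1 : (9 : ℝ) * (t + 5) ≤ 2 ^ (β / 2 * n) := by
      refine le_trans ?_ e1
      have h2 : (n : ℝ) / γ = 1 / γ * n := by ring
      rw [h2] at ht2
      have h3 : 0 < 1 / γ := by positivity
      nlinarith
    have h2 : (2 : ℝ) ^ (β * n) = 2 ^ (β / 2 * n) * (B * B * B * B) := by
      rw [hB, ← Real.rpow_add (by norm_num), ← Real.rpow_add (by norm_num),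
        ← Real.rpow_add (by norm_num), ← Real.rpow_add (by norm_num)]
      congr 1
      ring
    have hB'B : B' ≤ B := by rw [hBB]; nlinarith
    have ht0 : (0 : ℝ) ≤ t := Nat.cast_nonneg t
    have h3 : (3 * B * (t + 4) + 3) * (3 * (B' * B)) ≤ (9 * (t + 5)) * (B * B * B * B) := by
      have h4 : 3 * B * (t + 4) + 3 ≤ 3 * B * (t + 5) := by nlinarith
      have h5 : B' * B ≤ B * B := mul_le_mul_of_nonneg_right hB'B (by linarith)
      calc (3 * B * (t + 4) + 3) * (3 * (B' * B)) ≤ (3 * B * (t + 5)) * (3 * (B * B)) := by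
            gcongr
        _ = 9 * (t + 5) * (B * B * B * 1) := by ring
        _ ≤ 9 * (t + 5) * (B * B * B * B) := by gcongr
    calc (3 * B * (t + 4) + 3) * (3 * (B' * B) * amp n)
        = ((3 * B * (t + 4) + 3) * (3 * (B' * B))) * amp n := by ring
      _ ≤ ((9 * (t + 5)) * (B * B * B * B)) * amp n := mul_le_mul_of_nonneg_right h3 ha.le
      _ ≤ (2 ^ (β / 2 * n) * (B * B * B * B)) * amp n := by gcongr
      _ = _ := by rw [h2]
  -- counting
  have hcardR : (R.card : ℝ) ≤ η * 2 ^ n := by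
    have h1 : B ≤ (2 : ℝ) ^ (1 / 2 * (n : ℝ)) := by
      rw [hB]
      refine Real.rpow_le_rpow_of_exponent_le (by norm_num) ?_
      nlinarith
    have h2 : 1 ≤ η * (2 : ℝ) ^ (1 / 2 * (n : ℝ)) := by
      have h3 : 1 / η ≤ (2 : ℝ) ^ (1 / 2 * (n : ℝ)) := by
        refine le_trans ?_ e2
        have : 0 < 1 / η := by positivity
        nlinarith
      rw [div_le_iff₀ hη0] at h3
      linarith
    have h3 : (2 : ℝ) ^ n = 2 ^ (1 / 2 * (n : ℝ)) * 2 ^ (1 / 2 * (n : ℝ)) := by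
      rw [← Real.rpow_add (by norm_num), ← Real.rpow_natCast]
      congr 1
      ring
    rw [h3]
    have h4 : (0 : ℝ) < 2 ^ (1 / 2 * (n : ℝ)) := by positivity
    calc (R.card : ℝ) ≤ 2 ^ (1 / 2 * (n : ℝ)) * 1 := by linarith
      _ ≤ 2 ^ (1 / 2 * (n : ℝ)) * (η * (2 : ℝ) ^ (1 / 2 * (n : ℝ))) :=
          mul_le_mul_of_nonneg_left h2 h4.le
      _ = _ := by ring
  have hgood : ∀ F : Fin m → Clause n k, viol F z = 0 →
      (∀ x, x ∉ hball ε z → (1 - η) * (m / 2 ^ k) ≤ (viol F x : ℝ)) →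
      Hard e ε γ ζ F := by
    intro F hF hfar
    have d : Data (fun x => (viol F x : ℝ)) (m / 2 ^ k) η η R z :=
      { cb_pos := hcb
        nonneg := fun x => Nat.cast_nonneg _
        zero := by simp [hF]
        mean := mean_viol F
        far := fun x hx => hfar x (by rwa [hR] at hx)
        card := hcardR
        η_pos := hη0
        ρ_pos := hη0
        small := by linarith }
    exact d.hard hηζ hmix hMa hτ0 hRM hW
  classical
  have h1 := bad_count (m := m) hε0.le (by linarith) hη0 (by linarith) hk' hmn z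
  have h2 : Nat.card {F : Fin m → Clause n k // viol F z = 0} =
      (Fintype.piFinset fun _ : Fin m => sat k z).card := by
    rw [Nat.card_eq_fintype_card, Fintype.card_subtype]
    congr 1
    ext F
    rw [mem_filter]
    simp only [mem_univ, true_and]
    exact viol_zero_iff F z
  have h3 : Nat.card {F : Fin m → Clause n k // viol F z = 0 ∧ ¬ Hard e ε γ ζ F} ≤
      ((Fintype.piFinset fun _ : Fin m => sat k z).filter fun F => ∃ x, x ∉ hball ε z ∧
        (viol F x : ℝ) < (1 - η) * (m / 2 ^ k)).card := by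
    rw [Nat.card_eq_fintype_card, Fintype.card_subtype]
    refine card_le_card fun F hF => ?_
    rw [mem_filter] at hF ⊢
    obtain ⟨-, hF1, hF2⟩ := hF
    refine ⟨(viol_zero_iff F z).1 hF1, ?_⟩
    by_contra hc
    push Not at hc
    exact hF2 (hgood F hF1 hc)
  rw [h2]
  refine le_trans ?_ h1
  exact_mod_cast h3

end Pool.Agent.H73.QA
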