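import Pool.Agent.H73.QA.Chain

/-! Schedules: continuous paths and jumps. -/

namespace Pool.Agent.H73.QA

open Finset Matrix

section
variable {X : Type} [Fintype X]

theorem low_le {H H' : Matrix X X ℝ} {E E' : ℝ} {v : X → ℝ} (hv : v ⬝ᵥ v = 1)
    (he : H *ᵥ v = E • v) (hmin' : ∀ u : X → ℝ, E' * (u ⬝ᵥ u) ≤ u ⬝ᵥ H' *ᵥ u) :
    E' ≤ E + ∑ x, ∑ y, |H' x y - H x y| := by
  have h1 := hmin' v
  rw [hv, mul_one] at h1
  have h2 : v ⬝ᵥ H *ᵥ v = E := by rw [he, dotProduct_smul, hv, smul_eq_mul, mul_one]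
  have hle : ∀ x, |v x| ≤ 1 := by
    intro x
    have h3 : v x * v x ≤ 1 := by
      rw [← hv]
      unfold dotProduct
      exact single_le_sum (f := fun j => v j * v j) (fun j _ => mul_self_nonneg _) (mem_univ x)
    rw [abs_le]
    constructor <;> nlinarith
  have h3 : v ⬝ᵥ H' *ᵥ v - v ⬝ᵥ H *ᵥ v ≤ ∑ x, ∑ y, |H' x y - H x y| := by
    unfold mulVec dotProduct
    rw [← sum_sub_distrib]
    refine sum_le_sum fun x _ => ?_
    rw [← mul_sub, ← sum_sub_distrib, mul_sum]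
    refine sum_le_sum fun y _ => ?_
    have h4 : v x * (H' x y * v y - H x y * v y) = (v x * v y) * (H' x y - H x y) := by ring
    rw [h4]
    refine (le_abs_self _).trans ?_
    rw [abs_mul, abs_mul]
    have h5 : |v x| * |v y| ≤ 1 := mul_le_one₀ (hle x) (abs_nonneg _) (hle y)
    calc |v x| * |v y| * |H' x y - H x y| ≤ 1 * |H' x y - H x y| :=
          mul_le_mul_of_nonneg_right h5 (abs_nonneg _)
      _ = _ := one_mul _
  linarith

theorem low_cont {H : ℝ → Matrix X X ℝ} {S : Set ℝ}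
    (hH : ∀ x y, ContinuousOn (fun s => H s x y) S) {E : ℝ → ℝ} {v : ℝ → X → ℝ}
    (hv : ∀ s, v s ⬝ᵥ v s = 1) (he : ∀ s, H s *ᵥ v s = E s • v s)
    (hmin : ∀ s, ∀ u : X → ℝ, E s * (u ⬝ᵥ u) ≤ u ⬝ᵥ H s *ᵥ u) : ContinuousOn E S := by
  intro s hs
  have h1 : ∀ s', |E s' - E s| ≤ ∑ x, ∑ y, |H s' x y - H s x y| := by
    intro s'
    rw [abs_le]
    have h2 := low_le (hv s) (he s) (hmin s')
    have h3 := low_le (hv s') (he s') (hmin s)
    have h4 : ∑ x, ∑ y, |H s x y - H s' x y| = ∑ x, ∑ y, |H s' x y - H s x y| :=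
      sum_congr rfl fun x _ => sum_congr rfl fun y _ => abs_sub_comm _ _
    rw [h4] at h3
    constructor <;> linarith
  have h2 : Filter.Tendsto (fun s' => ∑ x, ∑ y, |H s' x y - H s x y|) (nhdsWithin s S)
      (nhds 0) := by
    have h3 : ContinuousOn (fun s' => ∑ x, ∑ y, |H s' x y - H s x y|) S := by
      refine continuousOn_finsetSum _ fun x _ => continuousOn_finsetSum _ fun y _ => ?_
      exact ((hH x y).sub continuousOn_const).abs
    have h4 := h3 s hs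
    unfold ContinuousWithinAt at h4
    simpa using h4
  unfold ContinuousWithinAt
  rw [tendsto_iff_norm_sub_tendsto_zero]
  exact squeeze_zero (fun _ => norm_nonneg _) h1 h2

end

variable {n : ℕ} {C : Cube n → ℝ} {cb η ρ : ℝ} {R : Finset (Cube n)} {z : Cube n}

/-- lowest energy -/
noncomputable def en (α : Finset (Fin n) → ℝ) (b : ℝ) (K : Cube n → ℝ) : ℝ :=
  (min_eig (hamC_symm α b K)).choose

theorem en_spec (α : Finset (Fin n) → ℝ) (b : ℝ) (K : Cube n → ℝ) :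
    ∃ v : Cube n → ℝ, v ⬝ᵥ v = 1 ∧ hamC α b K *ᵥ v = en α b K • v ∧
      ∀ u : Cube n → ℝ, en α b K * (u ⬝ᵥ u) ≤ u ⬝ᵥ hamC α b K *ᵥ u :=
  (min_eig (hamC_symm α b K)).choose_spec

theorem en_unique {α : Finset (Fin n) → ℝ} {b : ℝ} {K : Cube n → ℝ} {E : ℝ} {v : Cube n → ℝ}
    (hv : v ⬝ᵥ v = 1) (he : hamC α b K *ᵥ v = E • v)
    (hmin : ∀ u : Cube n → ℝ, E * (u ⬝ᵥ u) ≤ u ⬝ᵥ hamC α b K *ᵥ u) : E = en α b K := by
  obtain ⟨w, hw, hew, hminw⟩ := en_spec α b K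
  apply le_antisymm
  · have h4 := hmin w
    rw [hw, hew, dotProduct_smul, hw, smul_eq_mul, mul_one, mul_one] at h4
    exact h4
  · have h4 := hminw v
    rw [hv, he, dotProduct_smul, hv, smul_eq_mul, mul_one, mul_one] at h4
    exact h4

/-- the energy difference is small -/
def Free (C : Cube n → ℝ) (cb η g : ℝ) (α : Finset (Fin n) → ℝ) (b : ℝ) : Prop :=
  en α b (flat η cb C) - en α b C < g / 4 * (weight α + b * cb)

/-- unpack a ground state -/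
theorem Ground.en {α : Finset (Fin n) → ℝ} {b g : ℝ} {K : Cube n → ℝ} {ψ : Cube n → ℝ}
    (hg : 0 ≤ g) (h : Ground (hamC α b K) g ψ) :
    ψ ⬝ᵥ ψ = 1 ∧ hamC α b K *ᵥ ψ = Pool.Agent.H73.QA.en α b K • ψ ∧
      (∀ w : Cube n → ℝ, w ⬝ᵥ ψ = 0 →
        (Pool.Agent.H73.QA.en α b K + g) * (w ⬝ᵥ w) ≤ w ⬝ᵥ hamC α b K *ᵥ w) ∧
      ∀ u : Cube n → ℝ, Pool.Agent.H73.QA.en α b K * (u ⬝ᵥ u) ≤ u ⬝ᵥ hamC α b K *ᵥ u := by
  obtain ⟨h1, E, h2, h3⟩ := h
  have hmin0 := Ground.min (hamC_symm α b K) hg h1 h2 h3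
  have hmin : ∀ u : Cube n → ℝ, E * (u ⬝ᵥ u) ≤ u ⬝ᵥ hamC α b K *ᵥ u := by
    intro u
    have h4 := hmin0 u
    have h5 := cs u ψ
    rw [h1, mul_one] at h5
    nlinarith
  have hE := en_unique h1 h2 hmin
  rw [← hE]
  exact ⟨h1, h2, h3, hmin⟩

/-- admissible point of a schedule -/
def Adm (C : Cube n → ℝ) (cb q : ℝ) (t : ℕ) (M g : ℝ) (α : Finset (Fin n) → ℝ) (b : ℝ)
    (ψ : Cube n → ℝ) : Prop :=
  Mix q t M α ∧ 0 ≤ b ∧ 0 < weight α + b * cb ∧ Ground (hamC α b C) (g * (weight α + b * cb)) ψ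

theorem nR_abs (R : Finset (Cube n)) (f : Cube n → ℝ) : nR R (fun x => |f x|) = nR R f := by
  unfold nR
  simp only [sq_abs]

theorem abs_dot_le (f g : Cube n → ℝ) :
    |f ⬝ᵥ g| ≤ (fun x => |f x|) ⬝ᵥ (fun x => |g x|) := by
  unfold dotProduct
  refine (abs_sum_le_sum_abs _ _).trans (le_of_eq ?_)
  exact sum_congr rfl fun x _ => abs_mul _ _

theorem Data.free (d : Data C cb η ρ R z) {α : Finset (Fin n) → ℝ} {b M τ g : ℝ} {t : ℕ}
    (hM : 0 ≤ M) (hτ : Real.sqrt R.card * M ≤ τ) (hg : 0 < g) (hg1 : g ≤ 1)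
    {ψ : Cube n → ℝ} (ha : Adm C cb (1 / (1 - η - ρ)) t M g α b ψ) (hf : Free C cb η g α b) :
    b * cb < 2 * weight α ∧ Out R M (τ / g) (fun x => |ψ x|) ∧
      en α b (flat η cb C) - en α b C ≤ 6 * τ ^ 2 / g * (weight α + b * cb) := by
  obtain ⟨hm, hb, hG, hgr⟩ := ha
  have hgG := mul_pos hg hG
  obtain ⟨h1, h2, h3, -⟩ := (Ground.abs hm.nonneg hgG hgr).1.en hgG.le
  obtain ⟨v', hv', he', hmin'⟩ := en_spec α b (flat η cb C)
  exact d.good hm hM hτ hb hG hg hg1 (fun x => abs_nonneg _) h1 h2 h3 hv' he' hmin' hf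

theorem Data.not_free (d : Data C cb η ρ R z) {α : Finset (Fin n) → ℝ} {b M τ g : ℝ} {t : ℕ}
    (hMa : amp n ≤ M) (hτ : Real.sqrt R.card * M ≤ τ) (hg : 0 < g) (hg1 : g ≤ 1)
    {ψ : Cube n → ℝ} (ha : Adm C cb (1 / (1 - η - ρ)) t M g α b ψ)
    (hf : ¬ Free C cb η g α b) :
    (fun _ => amp n) ⬝ᵥ (fun x => |ψ x|) ≤ (t + 4) * (τ / g) := by
  obtain ⟨hm, hb, hG, hgr⟩ := ha
  have hgG := mul_pos hg hG
  obtain ⟨h1, h2, h3, h4⟩ := (Ground.abs hm.nonneg hgG hgr).1.en hgG.le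
  obtain ⟨v', hv', he', hmin'⟩ := en_spec α b (flat η cb C)
  exact d.bad hm hMa hτ hb hG hg hg1 (fun x => abs_nonneg _) h1 h2 h4 hmin' (not_lt.1 hf)

/-- continuous paths -/
theorem Data.path (d : Data C cb η ρ R z) {M τ g : ℝ} {t : ℕ} (hM : 0 ≤ M)
    (hτ : Real.sqrt R.card * M ≤ τ) (hg : 0 < g) (hg1 : g ≤ 1) (hτg : 24 * τ ^ 2 < g ^ 2)
    {α : ℝ → Finset (Fin n) → ℝ} {b : ℝ → ℝ} {ψ : ℝ → Cube n → ℝ}
    (hα : ∀ S, ContinuousOn (fun s => α s S) (Set.Icc 0 1)) (hb : ContinuousOn b (Set.Icc 0 1))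
    (h : ∀ s ∈ Set.Icc (0 : ℝ) 1, Adm C cb (1 / (1 - η - ρ)) t M g (α s) (b s) (ψ s))
    (h0 : Free C cb η g (α 0) (b 0)) : Free C cb η g (α 1) (b 1) := by
  choose v hv he hmin using fun s => en_spec (α s) (b s) C
  choose v' hv' he' hmin' using fun s => en_spec (α s) (b s) (flat η cb C)
  have hwc : ContinuousOn (fun s => weight (α s)) (Set.Icc 0 1) := by
    unfold weight
    exact continuousOn_finsetSum _ fun S _ => hα S
  have hGc : ContinuousOn (fun s => weight (α s) + b s * cb) (Set.Icc 0 1) :=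
    hwc.add (hb.mul continuousOn_const)
  have hent : ∀ (K : Cube n → ℝ) (x y : Cube n),
      ContinuousOn (fun s => hamC (α s) (b s) K x y) (Set.Icc 0 1) := by
    intro K x y
    unfold hamC
    refine ContinuousOn.sub ?_ (hα _)
    by_cases hxy : x = y
    · simp only [hxy, if_true]
      exact hb.mul continuousOn_const
    · simp only [hxy, if_false]
      exact continuousOn_const
  have hEc : ContinuousOn (fun s => en (α s) (b s) C) (Set.Icc 0 1) :=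
    low_cont (hent C) hv he hmin
  have hEc' : ContinuousOn (fun s => en (α s) (b s) (flat η cb C)) (Set.Icc 0 1) :=
    low_cont (hent _) hv' he' hmin'
  obtain ⟨f, hf⟩ : ∃ f : ℝ → ℝ, f = fun s => (en (α s) (b s) (flat η cb C) -
    en (α s) (b s) C) / (weight (α s) + b s * cb) := ⟨_, rfl⟩
  have hfc : ContinuousOn f (Set.Icc 0 1) := by
    rw [hf]
    exact (hEc'.sub hEc).div hGc fun s hs => (h s hs).2.2.1.ne'
  have hiff : ∀ s ∈ Set.Icc (0 : ℝ) 1, (Free C cb η g (α s) (b s) ↔ f s < g / 4) := by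
    intro s hs
    have hG := (h s hs).2.2.1
    unfold Free
    rw [hf]
    simp only
    rw [div_lt_iff₀ hG]
  have hlow : ∀ s ∈ Set.Icc (0 : ℝ) 1, f s < g / 4 → f s ≤ 6 * τ ^ 2 / g := by
    intro s hs hfs
    have hG := (h s hs).2.2.1
    have h1 := (d.free hM hτ hg hg1 (h s hs) ((hiff s hs).2 hfs)).2.2
    rw [hf]
    simp only
    rw [div_le_iff₀ hG]
    exact h1
  have hgap : 6 * τ ^ 2 / g < g / 4 := by
    rw [div_lt_iff₀ hg]
    nlinarith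
  have h00 : (0 : ℝ) ∈ Set.Icc (0 : ℝ) 1 := by norm_num
  have h11 : (1 : ℝ) ∈ Set.Icc (0 : ℝ) 1 := by norm_num
  rw [hiff 1 h11]
  by_contra hc
  push Not at hc
  have hf0 := hlow 0 h00 ((hiff 0 h00).1 h0)
  obtain ⟨c, hc1, hc2⟩ : ∃ c, 6 * τ ^ 2 / g < c ∧ c < g / 4 := exists_between hgap
  have h2 : c ∈ Set.Icc (f 0) (f 1) := ⟨by linarith, by linarith⟩
  obtain ⟨s, hs, hsc⟩ := intermediate_value_Icc zero_le_one hfc h2
  have h3 := hlow s hs (by rw [hsc]; exact hc2)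
  rw [hsc] at h3
  linarith

/-- schedules -/
theorem Data.schedule (d : Data C cb η ρ R z) {M τ g W : ℝ} {t : ℕ} (hMa : amp n ≤ M)
    (hτ0 : 0 < τ) (hτ : Real.sqrt R.card * M ≤ τ)
    (hW : (M / amp n * (t + 4) + 3) * τ ≤ W) (hg : 0 < g) (hg1 : g ≤ 1)
    (l : ℕ) (α : ℕ → ℝ → Finset (Fin n) → ℝ) (b : ℕ → ℝ → ℝ) (ψ : ℕ → ℝ → Cube n → ℝ)
    (h : ∀ i ≤ l, (∀ S, ContinuousOn (fun s => α i s S) (Set.Icc 0 1)) ∧
      ContinuousOn (b i) (Set.Icc 0 1) ∧ ∀ s ∈ Set.Icc (0 : ℝ) 1,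
        Adm C cb (1 / (1 - η - ρ)) t M g (α i s) (b i s) (ψ i s))
    (h0 : W / g < |(fun _ => amp n) ⬝ᵥ ψ 0 0|)
    (hj : ∀ i < l, W / g < |ψ i 1 ⬝ᵥ ψ (i + 1) 0|) :
    b l 1 * cb < 2 * weight (α l 1) ∧ nR R (ψ l 1) ≤ W / g := by
  have ha := amp_pos n
  have hM : 0 ≤ M := ha.le.trans hMa
  have hτg : τ ≤ τ / g := by
    rw [le_div_iff₀ hg]
    nlinarith
  have hτg0 : 0 ≤ τ / g := hτ0.le.trans hτg
  have hMa1 : 1 ≤ M / amp n := by
    rw [le_div_iff₀ ha]; linarith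
  have ht : (0 : ℝ) ≤ t := Nat.cast_nonneg t
  have hW7 : 7 * τ ≤ W := by
    refine le_trans (mul_le_mul_of_nonneg_right ?_ hτ0.le) hW
    nlinarith
  have h00 : (0 : ℝ) ∈ Set.Icc (0 : ℝ) 1 := by norm_num
  have h11 : (1 : ℝ) ∈ Set.Icc (0 : ℝ) 1 := by norm_num
  -- the gap exceeds W
  have hWg : W < g := by
    have h1 := cs (fun _ => amp n) (ψ 0 0)
    rw [amp_norm, (((h 0 (Nat.zero_le _)).2.2 0 h00).2.2.2).1, mul_one] at h1
    have h2 : |(fun _ => amp n) ⬝ᵥ ψ 0 0| ≤ 1 := by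
      rw [← sq_abs] at h1
      nlinarith [abs_nonneg ((fun _ => amp n) ⬝ᵥ ψ 0 0)]
    have h3 : W / g < 1 := h0.trans_le h2
    rwa [div_lt_one hg] at h3
  have hτ24 : 24 * τ ^ 2 < g ^ 2 := by nlinarith
  have hseg : ∀ i ≤ l, Free C cb η g (α i 0) (b i 0) → Free C cb η g (α i 1) (b i 1) :=
    fun i hi hf => d.path hM hτ hg hg1 hτ24 (h i hi).1 (h i hi).2.1 (h i hi).2.2 hf
  -- non free ground states have a small overlap with the uniform superposition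
  have hbad : ∀ i ≤ l, ¬ Free C cb η g (α i 0) (b i 0) →
      (fun _ => amp n) ⬝ᵥ (fun x => |ψ i 0 x|) ≤ (t + 4) * (τ / g) :=
    fun i hi hf => d.not_free hMa hτ hg hg1 ((h i hi).2.2 0 h00) hf
  have hind : ∀ i ≤ l, Free C cb η g (α i 1) (b i 1) := by
    intro i
    induction i with
    | zero =>
      intro hi
      refine hseg 0 hi ?_
      by_contra hf
      have h1 := hbad 0 hi hf
      have h2 : |(fun _ => amp n) ⬝ᵥ ψ 0 0| ≤ (fun _ => amp n) ⬝ᵥ (fun x => |ψ 0 0 x|) := by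
        have h3 := abs_dot_le (fun _ => amp n) (ψ 0 0)
        simp only [abs_of_pos ha] at h3
        exact h3
      have h3 : (t + 4) * (τ / g) ≤ W / g := by
        rw [← mul_div_assoc]
        refine div_le_div_of_nonneg_right (le_trans ?_ hW) hg.le
        refine mul_le_mul_of_nonneg_right ?_ hτ0.le
        nlinarith
      linarith
    | succ i ih =>
      intro hi
      refine hseg (i + 1) hi ?_
      by_contra hf
      have h1 := hbad (i + 1) hi hf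
      have h2 := (d.free hM hτ hg hg1 ((h i (by omega)).2.2 1 h11) (ih (by omega))).2.1
      have hgr := ((h (i + 1) hi).2.2 0 h00).2.2.2
      have h3 := h2.overlap hτg0 (χ := fun x => |ψ (i + 1) 0 x|) (fun x => abs_nonneg _) (by
        unfold dotProduct
        rw [← hgr.1]
        unfold dotProduct
        exact sum_congr rfl fun x _ => abs_mul_abs_self _) hM h1
      have h4 := abs_dot_le (ψ i 1) (ψ (i + 1) 0)
      have h5 : M / amp n * ((t + 4) * (τ / g)) + 3 * (τ / g) =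
          ((M / amp n * (t + 4) + 3) * τ) / g := by ring
      rw [h5] at h3
      have h6 := div_le_div_of_nonneg_right hW hg.le
      have h7 := hj i (by omega)
      linarith
  obtain ⟨h1, h2, -⟩ := d.free hM hτ hg hg1 ((h l le_rfl).2.2 1 h11) (hind l le_rfl)
  refine ⟨h1, ?_⟩
  have h3 := h2.2
  rw [nR_abs] at h3
  refine h3.trans ?_
  rw [← mul_div_assoc]
  exact div_le_div_of_nonneg_right (by linarith) hg.le

/-- formulas -/
theorem Data.hard {k m : ℕ} {F : Fin m → Clause n k} {e ε γ ζ : ℝ}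
    (d : Data (fun x => (viol F x : ℝ)) (m / 2 ^ k) η ρ R z) {M τ : ℝ} {t : ℕ} (hηζ : η < ζ)
    (hmix : ∀ α : Finset (Fin n) → ℝ, Driver ε γ α → Mix (1 / (1 - η - ρ)) t M α)
    (hMa : amp n ≤ M) (hτ0 : 0 < τ) (hτ : Real.sqrt R.card * M ≤ τ)
    (hW : (M / amp n * (t + 4) + 3) * τ ≤ (2 : ℝ) ^ (-(1 / 2 - e) * n)) :
    Hard e ε γ ζ F := by
  intro g l α b ψ hg hg1 h h0 hj
  obtain ⟨h1, h2⟩ := d.schedule hMa hτ0 hτ hW hg hg1 l α b ψ (fun i hi => by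
    obtain ⟨h1, h2, h3⟩ := h i hi
    refine ⟨h1, h2, fun s hs => ?_⟩
    obtain ⟨h4, h5, h6, h7⟩ := h3 s hs
    unfold scale at h6 h7
    rw [mul_div_assoc] at h6 h7
    exact ⟨hmix _ h4, h5, h6, h7⟩) h0 hj
  rw [← mul_div_assoc] at h1
  refine ⟨h1, fun L hL => ?_⟩
  refine le_trans (Real.sqrt_le_sqrt ?_) h2
  refine sum_le_sum_of_subset_of_nonneg (fun x hx => ?_) fun x _ _ => sq_nonneg _
  by_contra hc
  have h3 := d.far x hc
  have h4 := d.cb_pos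
  have h5 := hL x hx
  rw [mul_div_assoc] at h5
  have h6 : (1 - ζ) * (m / 2 ^ k : ℝ) < (1 - η) * (m / 2 ^ k : ℝ) :=
    mul_lt_mul_of_pos_right (by linarith) h4
  linarith

end Pool.Agent.H73.QA
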