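import Pool.Agent.H73.QA.Dom

/-! Ground states are either delocalised or almost orthogonal to the uniform superposition. -/

namespace Pool.Agent.H73.QA

open Finset Matrix

variable {n : ℕ} {C : Cube n → ℝ} {cb η ρ : ℝ} {R : Finset (Cube n)} {z : Cube n}

/-- norm of the part in `R` -/
noncomputable def nR (R : Finset (Cube n)) (f : Cube n → ℝ) : ℝ := Real.sqrt (∑ x ∈ R, f x ^ 2)

theorem nR_nonneg (R : Finset (Cube n)) (f : Cube n → ℝ) : 0 ≤ nR R f := Real.sqrt_nonneg _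

theorem nR_le (R : Finset (Cube n)) (f : Cube n → ℝ) : nR R f ≤ Real.sqrt (f ⬝ᵥ f) := by
  unfold nR dotProduct
  refine Real.sqrt_le_sqrt ?_
  calc ∑ x ∈ R, f x ^ 2 ≤ ∑ x, f x ^ 2 := sum_le_univ_sum_of_nonneg fun x => sq_nonneg _
    _ = _ := sum_congr rfl fun x _ => sq _

theorem nR_add (R : Finset (Cube n)) (f g : Cube n → ℝ) : nR R (f + g) ≤ nR R f + nR R g := by
  unfold nR
  have h1 : ∑ x ∈ R, (f + g) x ^ 2 ≤
      (Real.sqrt (∑ x ∈ R, f x ^ 2) + Real.sqrt (∑ x ∈ R, g x ^ 2)) ^ 2 := by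
    have hf : 0 ≤ ∑ x ∈ R, f x ^ 2 := sum_nonneg fun x _ => sq_nonneg _
    have hg : 0 ≤ ∑ x ∈ R, g x ^ 2 := sum_nonneg fun x _ => sq_nonneg _
    rw [add_sq, Real.sq_sqrt hf, Real.sq_sqrt hg]
    have h2 := sum_mul_sq_le_sq_mul_sq R f g
    have h3 : ∑ x ∈ R, f x * g x ≤
        Real.sqrt (∑ x ∈ R, f x ^ 2) * Real.sqrt (∑ x ∈ R, g x ^ 2) := by
      rw [← Real.sqrt_mul hf]
      exact Real.le_sqrt_of_sq_le h2
    have h4 : ∑ x ∈ R, (f + g) x ^ 2 =
        ∑ x ∈ R, f x ^ 2 + 2 * (∑ x ∈ R, f x * g x) + ∑ x ∈ R, g x ^ 2 := by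
      rw [mul_sum, ← sum_add_distrib, ← sum_add_distrib]
      exact sum_congr rfl fun x _ => by simp only [Pi.add_apply]; ring
    rw [h4]
    linarith
  calc Real.sqrt (∑ x ∈ R, (f + g) x ^ 2) ≤ Real.sqrt ((Real.sqrt (∑ x ∈ R, f x ^ 2) +
        Real.sqrt (∑ x ∈ R, g x ^ 2)) ^ 2) := Real.sqrt_le_sqrt h1
    _ = _ := Real.sqrt_sq (by positivity)

theorem nR_smul (R : Finset (Cube n)) (a : ℝ) (f : Cube n → ℝ) : nR R (a • f) = |a| * nR R f := by
  unfold nR
  have h1 : ∑ x ∈ R, (a • f) x ^ 2 = a ^ 2 * ∑ x ∈ R, f x ^ 2 := by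
    rw [mul_sum]
    exact sum_congr rfl fun x _ => by simp only [Pi.smul_apply, smul_eq_mul]; ring
  rw [h1, Real.sqrt_mul (sq_nonneg a), Real.sqrt_sq_eq_abs]

/-- functions with a pointwise bound -/
theorem nR_of_bound {R : Finset (Cube n)} {f : Cube n → ℝ} {B : ℝ} (hB : 0 ≤ B)
    (h : ∀ x, |f x| ≤ B) : nR R f ≤ Real.sqrt R.card * B := by
  unfold nR
  have h1 : ∑ x ∈ R, f x ^ 2 ≤ R.card * B ^ 2 := by
    rw [← nsmul_eq_mul]
    refine sum_le_card_nsmul _ _ _ fun x _ => ?_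
    rw [← sq_abs]
    exact pow_le_pow_left₀ (abs_nonneg _) (h x) 2
  calc Real.sqrt (∑ x ∈ R, f x ^ 2) ≤ Real.sqrt (R.card * B ^ 2) := Real.sqrt_le_sqrt h1
    _ = _ := by rw [Real.sqrt_mul (Nat.cast_nonneg _), Real.sqrt_sq hB]

/-- the interaction term -/
theorem Data.inter (d : Data C cb η ρ R z) {b : ℝ} (hb : 0 ≤ b) (f g : Cube n → ℝ) :
    |∑ x, b * (flat η cb C x - C x) * (f x * g x)| ≤ b * cb * (nR R f * nR R g) := by
  have h1 : |∑ x, b * (flat η cb C x - C x) * (f x * g x)| ≤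
      ∑ x, |b * (flat η cb C x - C x) * (f x * g x)| := abs_sum_le_sum_abs _ _
  have h2 : ∑ x, |b * (flat η cb C x - C x) * (f x * g x)| ≤
      ∑ x, (if x ∈ R then b * cb * (|f x| * |g x|) else 0) := by
    refine sum_le_sum fun x _ => ?_
    obtain ⟨h3, h4⟩ := d.flat_sub x
    rw [abs_mul, abs_mul, abs_mul, abs_of_nonneg hb, abs_of_nonneg h3]
    by_cases h : x ∈ R
    · rw [if_pos h] at h4 ⊢
      gcongr
    · rw [if_neg h] at h4 ⊢
      have : flat η cb C x - C x = 0 := le_antisymm h4 h3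
      rw [this]
      simp
  rw [sum_ite_mem, univ_inter, ← mul_sum] at h2
  have h5 : ∑ x ∈ R, |f x| * |g x| ≤ nR R f * nR R g := by
    unfold nR
    have hf : 0 ≤ ∑ x ∈ R, f x ^ 2 := sum_nonneg fun x _ => sq_nonneg _
    rw [← Real.sqrt_mul hf]
    refine Real.le_sqrt_of_sq_le ?_
    have h6 := sum_mul_sq_le_sq_mul_sq R (fun x => |f x|) (fun x => |g x|)
    simpa only [sq_abs] using h6
  calc |∑ x, b * (flat η cb C x - C x) * (f x * g x)| ≤ _ := h1
    _ ≤ _ := h2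
    _ ≤ _ := mul_le_mul_of_nonneg_left h5 (mul_nonneg hb d.cb_pos.le)

/-- key relation between the two lowest energies -/
theorem key (α : Finset (Fin n) → ℝ) (b E E' : ℝ) {ψ φ : Cube n → ℝ}
    (hψ : hamC α b C *ᵥ ψ = E • ψ) (hφ : hamC α b (flat η cb C) *ᵥ φ = E' • φ) :
    (E' - E) * (φ ⬝ᵥ ψ) = ∑ x, b * (flat η cb C x - C x) * (φ x * ψ x) := by
  have h1 : φ ⬝ᵥ hamC α b C *ᵥ ψ = E * (φ ⬝ᵥ ψ) := by
    rw [hψ, dotProduct_smul, smul_eq_mul]
  have h2 : φ ⬝ᵥ hamC α b (flat η cb C) *ᵥ ψ = E' * (φ ⬝ᵥ ψ) := by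
    rw [sym_dot (hamC_symm _ _ _), hφ, dotProduct_smul, smul_eq_mul, dotProduct_comm]
  rw [hamC_quad] at h1 h2
  have h3 : ∑ x, b * (flat η cb C x - C x) * (φ x * ψ x) =
      ∑ x, b * flat η cb C x * (φ x * ψ x) - ∑ x, b * C x * (φ x * ψ x) := by
    rw [← sum_sub_distrib]
    exact sum_congr rfl fun x _ => by ring
  rw [h3]
  linarith

/-- the flattened cost has the larger lowest energy -/
theorem flat_energy (d : Data C cb η ρ R z) {α : Finset (Fin n) → ℝ} {b : ℝ} (hb : 0 ≤ b)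
    (u : Cube n → ℝ) : u ⬝ᵥ hamC α b C *ᵥ u ≤ u ⬝ᵥ hamC α b (flat η cb C) *ᵥ u := by
  rw [hamC_quad, hamC_quad]
  have : ∑ x, b * C x * (u x * u x) ≤ ∑ x, b * flat η cb C x * (u x * u x) := by
    refine sum_le_sum fun x _ => ?_
    have := (d.flat_sub x).1
    have h2 : C x ≤ flat η cb C x := by linarith
    have h3 : 0 ≤ u x * u x := mul_self_nonneg _
    gcongr
  linarith

/-- delocalised ground state of the flattened Hamiltonian -/
theorem Data.deloc (d : Data C cb η ρ R z) {α : Finset (Fin n) → ℝ} {b M : ℝ} {t : ℕ}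
    (hm : Mix (1 / (1 - η - ρ)) t M α) (hM : 0 ≤ M) (hb : 0 ≤ b) (hw : 0 < weight α)
    (hreg : b * cb ≤ 2 * weight α) :
    ∃ (E' : ℝ) (φ : Cube n → ℝ), φ ⬝ᵥ φ = 1 ∧ hamC α b (flat η cb C) *ᵥ φ = E' • φ ∧
      (∀ u : Cube n → ℝ, E' * (u ⬝ᵥ u) ≤ u ⬝ᵥ hamC α b (flat η cb C) *ᵥ u) ∧
      (∀ x, 0 ≤ φ x) ∧ (∀ x, φ x ≤ M) ∧ E' ≤ -weight α + b * cb * (1 + ρ) := by
  obtain ⟨E', v, hv1, hv, hmin⟩ := min_eig (hamC_symm α b (flat η cb C))
  obtain ⟨h1, h2⟩ := nonneg_ground hm.nonneg b (flat η cb C) hv1 hv hmin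
  have hE := d.energy hb hmin
  have hs := d.small
  have hq : 1 ≤ 1 / (1 - η - ρ) := by
    rw [le_div_iff₀ (by linarith)]
    linarith [d.η_pos, d.ρ_pos]
  refine ⟨E', fun x => |v x|, h1, h2, hmin, fun x => abs_nonneg _, fun x => ?_, hE⟩
  have h3 := point_bound hm hw hq hM (h := 0) le_rfl (f := fun x => |v x|) (fun y => by
    have h4 := d.dom hb hw hreg hE (f := fun x => |v x|) (fun x => abs_nonneg _) (h := 0)
      (fun y => by
        have h5 := congrFun h2 y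
        rw [hamC_mulVec] at h5
        simp only [Pi.smul_apply, smul_eq_mul] at h5
        simp only [add_zero]
        linarith) y
    rwa [zero_div] at h4) x
  rw [h1] at h3
  simpa using h3

/-- resolvent bound: if the lowest energy of `H` is well below the one of the flattened
Hamiltonian then the ground state is almost orthogonal to the uniform superposition -/
theorem Data.resolvent (d : Data C cb η ρ R z) {α : Finset (Fin n) → ℝ} {b M : ℝ} {t : ℕ}
    (hm : Mix (1 / (1 - η - ρ)) t M α) (hM : 0 ≤ M) (hb : 0 ≤ b) (hw : 0 < weight α)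
    (hreg : b * cb ≤ 2 * weight α) {E E' : ℝ} {ψ : Cube n → ℝ} (hψ1 : ψ ⬝ᵥ ψ = 1)
    (hψ : hamC α b C *ᵥ ψ = E • ψ)
    (hmin : ∀ u : Cube n → ℝ, E' * (u ⬝ᵥ u) ≤ u ⬝ᵥ hamC α b (flat η cb C) *ᵥ u)
    (hlt : E < E') (hE' : E' ≤ -weight α + b * cb * (1 + ρ)) :
    |(fun _ => amp n) ⬝ᵥ ψ| ≤
      b * cb * (Real.sqrt R.card * (M * (1 / (E' - E) + t * (1 / (2 * weight α))))) := by
  obtain ⟨H', hH'⟩ : ∃ H' : Matrix (Cube n) (Cube n) ℝ, H' = hamC α b (flat η cb C) := ⟨_, rfl⟩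
  have hsym : H'ᵀ = H' := by rw [hH']; exact hamC_symm _ _ _
  have hD : 0 < E' - E := by linarith
  -- the resolvent equation has a solution
  obtain ⟨f, hf⟩ : ∃ f : Cube n → ℝ, H' *ᵥ f - E • f = fun _ => amp n := by
    have hinj : Function.Injective (H' - E • (1 : Matrix (Cube n) (Cube n) ℝ)).mulVecLin := by
      rw [← LinearMap.ker_eq_bot, LinearMap.ker_eq_bot']
      intro g hg
      rw [mulVecLin_apply, sub_mulVec, smul_mulVec, one_mulVec] at hg
      have h1 : H' *ᵥ g = E • g := sub_eq_zero.1 hg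
      have h2 := hmin g
      rw [← hH', h1, dotProduct_smul, smul_eq_mul] at h2
      by_contra hne
      have h3 : 0 < g ⬝ᵥ g :=
        lt_of_le_of_ne (dot_self_nonneg g) fun h => hne (dot_self_eq_zero h.symm)
      nlinarith
    obtain ⟨f, hf⟩ := LinearMap.injective_iff_surjective.1 hinj fun _ => amp n
    refine ⟨f, ?_⟩
    rw [mulVecLin_apply, sub_mulVec, smul_mulVec, one_mulVec] at hf
    exact hf
  -- its norm
  have hfn : Real.sqrt (f ⬝ᵥ f) ≤ 1 / (E' - E) := by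
    have h1 : f ⬝ᵥ (H' *ᵥ f - E • f) = f ⬝ᵥ fun _ => amp n := by rw [hf]
    rw [dotProduct_sub, dotProduct_smul, smul_eq_mul] at h1
    have h2 := hmin f
    rw [← hH'] at h2
    have h3 := cs f (fun _ => amp n)
    rw [amp_norm, mul_one] at h3
    have h4 : f ⬝ᵥ (fun _ => amp n) ≤ Real.sqrt (f ⬝ᵥ f) := Real.le_sqrt_of_sq_le h3
    have h5 : (E' - E) * (f ⬝ᵥ f) ≤ Real.sqrt (f ⬝ᵥ f) := by linarith
    have h6 := Real.mul_self_sqrt (dot_self_nonneg f)
    rw [le_div_iff₀ hD]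
    rcases eq_or_lt_of_le (Real.sqrt_nonneg (f ⬝ᵥ f)) with h7 | h7
    · rw [← h7]; linarith
    · rw [← h6] at h5
      have h8 : ((E' - E) * Real.sqrt (f ⬝ᵥ f)) * Real.sqrt (f ⬝ᵥ f) ≤
          1 * Real.sqrt (f ⬝ᵥ f) := by
        nlinarith
      have h9 := le_of_mul_le_mul_right h8 h7
      linarith
  have hs := d.small
  have hq : 1 ≤ 1 / (1 - η - ρ) := by
    rw [le_div_iff₀ (by linarith)]
    linarith [d.η_pos, d.ρ_pos]
  have hE1 : E ≤ -weight α + b * cb * (1 + ρ) := by linarith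
  have habs : (fun x => |f x|) ⬝ᵥ (fun x => |f x|) = f ⬝ᵥ f := by
    unfold dotProduct
    exact sum_congr rfl fun x _ => abs_mul_abs_self _
  have hampn := amp_pos n
  -- pointwise bound of the solution
  have hpt : ∀ x, |f x| ≤ M * (1 / (E' - E) + t * (1 / (2 * weight α))) := by
    intro x
    have h3 := point_bound hm hw hq hM (h := amp n / (2 * weight α)) (by positivity)
      (f := fun x => |f x|) (fun y => d.dom hb hw hreg hE1 (f := fun x => |f x|)
        (fun x => abs_nonneg _) (h := amp n) (fun y => ?_) y) x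
    · rw [habs] at h3
      have h4 : amp n / (2 * weight α) / amp n = 1 / (2 * weight α) := by
        field_simp
      rw [h4] at h3
      refine h3.trans (mul_le_mul_of_nonneg_left ?_ hM)
      linarith
    · have h5 := congrFun hf y
      rw [hH'] at h5
      simp only [Pi.sub_apply, hamC_mulVec, Pi.smul_apply, smul_eq_mul] at h5
      have h6 : (b * flat η cb C y - E) * f y = Aop α f y + amp n := by linarith
      have h7 : 0 ≤ b * flat η cb C y - E := by
        have h8 := mul_le_mul_of_nonneg_left (Data.flat_ge (C := C) (cb := cb) (η := η) y) hb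
        have h9 : b * cb * (η + ρ) ≤ 2 * weight α * (η + ρ) :=
          mul_le_mul_of_nonneg_right hreg (by linarith [d.η_pos, d.ρ_pos])
        nlinarith
      have h10 : |(b * flat η cb C y - E) * f y| = (b * flat η cb C y - E) * |f y| := by
        rw [abs_mul, abs_of_nonneg h7]
      rw [← h10, h6]
      refine (abs_add_le _ _).trans ?_
      rw [abs_of_pos hampn]
      have h11 : |Aop α f y| ≤ Aop α (fun x => |f x|) y := by
        unfold Aop
        refine (abs_sum_le_sum_abs _ _).trans (sum_le_sum fun w _ => ?_)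
        rw [abs_mul, abs_of_nonneg (hm.nonneg _)]
      linarith
  -- the overlap
  have h1 : (fun _ => amp n) ⬝ᵥ ψ = ∑ x, b * (flat η cb C x - C x) * (f x * ψ x) := by
    rw [← hf, sub_dotProduct, smul_dotProduct, smul_eq_mul, dotProduct_comm (H' *ᵥ f) ψ,
      sym_dot hsym ψ f]
    have h2 : f ⬝ᵥ hamC α b C *ᵥ ψ = E * (f ⬝ᵥ ψ) := by rw [hψ, dotProduct_smul, smul_eq_mul]
    rw [← h2, hH', hamC_quad, hamC_quad]
    have h3 : ∑ x, b * (flat η cb C x - C x) * (f x * ψ x) =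
        ∑ x, b * flat η cb C x * (f x * ψ x) - ∑ x, b * C x * (f x * ψ x) := by
      rw [← sum_sub_distrib]
      exact sum_congr rfl fun x _ => by ring
    rw [h3]
    ring
  rw [h1]
  refine (d.inter hb f ψ).trans (mul_le_mul_of_nonneg_left ?_ (mul_nonneg hb d.cb_pos.le))
  have hB : 0 ≤ M * (1 / (E' - E) + t * (1 / (2 * weight α))) := by positivity
  have h2 := nR_of_bound (R := R) hB hpt
  have h3 : nR R ψ ≤ 1 := by
    have := nR_le R ψ
    rwa [hψ1, Real.sqrt_one] at this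
  calc nR R f * nR R ψ ≤ (Real.sqrt R.card * (M * (1 / (E' - E) + t * (1 / (2 * weight α))))) * 1 :=
        mul_le_mul h2 h3 (nR_nonneg _ _) (by positivity)
    _ = _ := mul_one _

end Pool.Agent.H73.QA
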