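import Pool.Agent.H73.QA.Lin

/-! Hamiltonians, the lazy walk of a driver, Walsh functions. -/

namespace Pool.Agent.H73.QA

open Finset Matrix

variable {n : ℕ}

theorem diff_comm (x y : Cube n) : diff x y = diff y x := by
  ext i; simp [diff, ne_comm]

theorem diff_self (x : Cube n) : diff x x = ∅ := by
  simp [diff]

/-- flip the bits in `S` -/
def flip (S : Finset (Fin n)) (x : Cube n) : Cube n := fun i => xor (decide (i ∈ S)) (x i)

theorem diff_flip (S : Finset (Fin n)) (x : Cube n) : diff x (flip S x) = S := by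
  ext i
  by_cases h : i ∈ S <;> cases hx : x i <;> simp [diff, flip, h, hx]

theorem flip_diff (x y : Cube n) : flip (diff x y) x = y := by
  funext i
  cases hx : x i <;> cases hy : y i <;> simp [diff, flip, hx, hy]

/-- the operator `∑ S, α S X_S` -/
noncomputable def Aop (α : Finset (Fin n) → ℝ) (f : Cube n → ℝ) (x : Cube n) : ℝ :=
  ∑ y, α (diff x y) * f y

theorem Aop_eq (α : Finset (Fin n) → ℝ) (f : Cube n → ℝ) (x : Cube n) :
    Aop α f x = ∑ S, α S * f (flip S x) := by
  unfold Aop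
  refine (Fintype.sum_equiv ⟨fun S => flip S x, fun y => diff x y, fun S => diff_flip S x,
    fun y => flip_diff x y⟩ _ _ fun S => ?_).symm
  simp [diff_flip]

/-- Hamiltonian of a general cost function -/
noncomputable def hamC (α : Finset (Fin n) → ℝ) (b : ℝ) (C : Cube n → ℝ) :
    Matrix (Cube n) (Cube n) ℝ :=
  fun x y => (if x = y then b * C x else 0) - α (diff x y)

theorem ham_eq {k m : ℕ} (α : Finset (Fin n) → ℝ) (b : ℝ) (F : Fin m → Clause n k) :
    ham α b F = hamC α b fun x => (viol F x : ℝ) := rfl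

theorem hamC_mulVec (α : Finset (Fin n) → ℝ) (b : ℝ) (C : Cube n → ℝ) (f : Cube n → ℝ)
    (x : Cube n) : (hamC α b C *ᵥ f) x = b * C x * f x - Aop α f x := by
  unfold hamC Aop mulVec dotProduct
  simp only [sub_mul, sum_sub_distrib]
  congr 1
  rw [Finset.sum_eq_single x]
  · simp
  · intro y _ hy
    simp [Ne.symm hy]
  · simp

theorem hamC_symm (α : Finset (Fin n) → ℝ) (b : ℝ) (C : Cube n → ℝ) :
    (hamC α b C)ᵀ = hamC α b C := by
  ext x y
  simp only [transpose_apply, hamC]
  rw [diff_comm y x]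
  by_cases h : x = y
  · subst h; rfl
  · simp [h, Ne.symm h]

theorem hamC_quad (α : Finset (Fin n) → ℝ) (b : ℝ) (C : Cube n → ℝ) (f g : Cube n → ℝ) :
    f ⬝ᵥ hamC α b C *ᵥ g = ∑ x, b * C x * (f x * g x) - ∑ x, f x * Aop α g x := by
  unfold dotProduct
  simp only [hamC_mulVec, mul_sub, sum_sub_distrib]
  congr 1
  exact sum_congr rfl fun x _ => by ring

/-! ### Walsh functions -/

/-- sign of a bit -/
noncomputable def sgn (b : Bool) : ℝ := if b then -1 else 1

theorem sgn_mul_self (b : Bool) : sgn b * sgn b = 1 := by cases b <;> simp [sgn]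

/-- Walsh function -/
noncomputable def chi (T : Finset (Fin n)) (x : Cube n) : ℝ := ∏ i ∈ T, sgn (x i)

theorem chi_sq (T : Finset (Fin n)) (x : Cube n) : chi T x * chi T x = 1 := by
  unfold chi
  rw [← prod_mul_distrib]
  exact prod_eq_one fun i _ => sgn_mul_self _

theorem chi_flip (S T : Finset (Fin n)) (x : Cube n) :
    chi T (flip S x) = (-1) ^ (S ∩ T).card * chi T x := by
  unfold chi
  have h1 : ∀ i, sgn (flip S x i) = (if i ∈ S then -1 else 1) * sgn (x i) := by
    intro i
    by_cases h : i ∈ S <;> cases hx : x i <;> simp [flip, sgn, h, hx]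
  simp only [h1, prod_mul_distrib]
  congr 1
  rw [Finset.prod_ite]
  simp only [prod_const, one_pow, mul_one]
  congr 2
  ext i
  simp [and_comm]

theorem chi_ortho (x y : Cube n) :
    ∑ T : Finset (Fin n), chi T x * chi T y = if x = y then 2 ^ n else 0 := by
  have h1 : ∑ T : Finset (Fin n), chi T x * chi T y = ∏ i, (1 + sgn (x i) * sgn (y i)) := by
    rw [Finset.prod_one_add]
    rw [Finset.powerset_univ]
    refine sum_congr rfl fun T _ => ?_
    unfold chi
    rw [prod_mul_distrib]
  rw [h1]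
  by_cases h : x = y
  · subst h
    simp only [sgn_mul_self, if_true]
    norm_num
  · rw [if_neg h]
    have h2 : ∃ i, x i ≠ y i := by
      by_contra hc
      push Not at hc
      exact h (funext hc)
    obtain ⟨i, hi⟩ := h2
    refine prod_eq_zero (mem_univ i) ?_
    cases hx : x i <;> cases hy : y i <;> simp_all [sgn]

/-- Walsh coefficient -/
noncomputable def coef (f : Cube n → ℝ) (T : Finset (Fin n)) : ℝ := (∑ x, f x * chi T x) / 2 ^ n

theorem inversion (f : Cube n → ℝ) (x : Cube n) : f x = ∑ T, coef f T * chi T x := by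
  have h1 : ∑ T, coef f T * chi T x =
      (∑ y, f y * ∑ T : Finset (Fin n), chi T y * chi T x) / 2 ^ n := by
    unfold coef
    simp only [div_mul_eq_mul_div, ← sum_div, sum_mul, mul_sum]
    rw [sum_comm]
    congr 1
    exact sum_congr rfl fun y _ => sum_congr rfl fun T _ => by ring
  rw [h1]
  simp only [chi_ortho, mul_ite, mul_zero]
  rw [sum_ite_eq']
  simp

theorem parseval (f : Cube n → ℝ) : ∑ T, coef f T ^ 2 = (f ⬝ᵥ f) / 2 ^ n := by
  have h1 : ∑ T, coef f T ^ 2 = (∑ x, f x * ∑ T, coef f T * chi T x) / 2 ^ n := by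
    simp only [mul_sum]
    rw [sum_comm, sum_div]
    refine sum_congr rfl fun T _ => ?_
    have h2 : ∑ x, f x * (coef f T * chi T x) = coef f T * ∑ x, f x * chi T x := by
      rw [mul_sum]
      exact sum_congr rfl fun x _ => by ring
    rw [h2, mul_div_assoc]
    rw [sq]
    rfl
  rw [h1]
  unfold dotProduct
  congr 1
  exact sum_congr rfl fun x _ => by rw [← inversion]

/-! ### The lazy walk -/

/-- weight of the sets that meet `T` in an odd number of points -/
noncomputable def odd (α : Finset (Fin n) → ℝ) (T : Finset (Fin n)) : ℝ :=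
  ∑ S ∈ univ.filter (fun S => Odd (S ∩ T).card), α S

theorem odd_nonneg {α : Finset (Fin n) → ℝ} (h : ∀ S, 0 ≤ α S) (T : Finset (Fin n)) :
    0 ≤ odd α T := sum_nonneg fun S _ => h S

theorem odd_le {α : Finset (Fin n) → ℝ} (h : ∀ S, 0 ≤ α S) (T : Finset (Fin n)) :
    odd α T ≤ weight α :=
  sum_le_univ_sum_of_nonneg fun S => h S

theorem Aop_chi (α : Finset (Fin n) → ℝ) (T : Finset (Fin n)) (x : Cube n) :
    Aop α (chi T) x = (weight α - 2 * odd α T) * chi T x := by
  rw [Aop_eq]
  simp only [chi_flip]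
  have h1 : ∑ S, α S * ((-1) ^ (S ∩ T).card * chi T x) =
      (∑ S, α S * (-1) ^ (S ∩ T).card) * chi T x := by
    rw [sum_mul]
    exact sum_congr rfl fun S _ => by ring
  rw [h1]
  congr 1
  have h2 : ∀ S : Finset (Fin n), α S * (-1) ^ (S ∩ T).card =
      α S - 2 * (if Odd (S ∩ T).card then α S else 0) := by
    intro S
    by_cases h : Odd (S ∩ T).card
    · rw [h.neg_one_pow, if_pos h]; ring
    · rw [(Nat.not_odd_iff_even.1 h).neg_one_pow, if_neg h]; ring
  simp only [h2, sum_sub_distrib, ← mul_sum]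
  unfold weight odd
  rw [sum_filter]

/-- lazy walk of the driver -/
noncomputable def Lop (α : Finset (Fin n) → ℝ) (f : Cube n → ℝ) (x : Cube n) : ℝ :=
  (Aop α f x + weight α * f x) / (2 * weight α)

theorem Aop_mono {α : Finset (Fin n) → ℝ} (h : ∀ S, 0 ≤ α S) {f g : Cube n → ℝ}
    (hfg : ∀ x, f x ≤ g x) (x : Cube n) : Aop α f x ≤ Aop α g x :=
  sum_le_sum fun y _ => mul_le_mul_of_nonneg_left (hfg y) (h _)

theorem weight_nonneg {α : Finset (Fin n) → ℝ} (h : ∀ S, 0 ≤ α S) : 0 ≤ weight α :=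
  sum_nonneg fun S _ => h S

theorem Lop_mono {α : Finset (Fin n) → ℝ} (h : ∀ S, 0 ≤ α S) {f g : Cube n → ℝ}
    (hfg : ∀ x, f x ≤ g x) (x : Cube n) : Lop α f x ≤ Lop α g x := by
  unfold Lop
  have hw := weight_nonneg h
  refine div_le_div_of_nonneg_right ?_ (by linarith)
  exact add_le_add (Aop_mono h hfg x) (mul_le_mul_of_nonneg_left (hfg x) hw)

theorem Aop_lin (α : Finset (Fin n) → ℝ) (f g : Cube n → ℝ) (a b : ℝ) (x : Cube n) :
    Aop α (fun y => a * f y + b * g y) x = a * Aop α f x + b * Aop α g x := by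
  unfold Aop
  rw [mul_sum, mul_sum, ← sum_add_distrib]
  exact sum_congr rfl fun y _ => by ring

theorem Aop_const (α : Finset (Fin n) → ℝ) (c : ℝ) (x : Cube n) :
    Aop α (fun _ => c) x = weight α * c := by
  rw [Aop_eq]
  unfold weight
  rw [sum_mul]

theorem Lop_lin (α : Finset (Fin n) → ℝ) (f g : Cube n → ℝ) (a b : ℝ) (x : Cube n) :
    Lop α (fun y => a * f y + b * g y) x = a * Lop α f x + b * Lop α g x := by
  unfold Lop
  rw [Aop_lin]
  ring

theorem Lop_const {α : Finset (Fin n) → ℝ} (h : 0 < weight α) (c : ℝ) (x : Cube n) :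
    Lop α (fun _ => c) x = c := by
  unfold Lop
  rw [Aop_const]
  field_simp
  ring

/-- eigenvalue of the lazy walk -/
noncomputable def mu (α : Finset (Fin n) → ℝ) (T : Finset (Fin n)) : ℝ := 1 - odd α T / weight α

theorem Lop_sum {α : Finset (Fin n) → ℝ} (h : 0 < weight α) (a : Finset (Fin n) → ℝ)
    (x : Cube n) :
    Lop α (fun y => ∑ T, a T * chi T y) x = ∑ T, (mu α T * a T) * chi T x := by
  have h1 : Aop α (fun y => ∑ T, a T * chi T y) x =
      ∑ T, a T * ((weight α - 2 * odd α T) * chi T x) := by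
    simp only [← Aop_chi]
    unfold Aop
    simp only [mul_sum]
    rw [sum_comm]
    exact sum_congr rfl fun T _ => sum_congr rfl fun y _ => by ring
  unfold Lop
  rw [h1, mul_sum, ← sum_add_distrib, sum_div]
  refine sum_congr rfl fun T _ => ?_
  unfold mu
  field_simp
  ring

theorem Lop_iter {α : Finset (Fin n) → ℝ} (h : 0 < weight α) (f : Cube n → ℝ) (t : ℕ)
    (x : Cube n) :
    (Lop α)^[t] f x = ∑ T, (mu α T ^ t * coef f T) * chi T x := by
  induction t generalizing x with
  | zero => simpa using inversion f x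
  | succ t ih =>
    rw [Function.iterate_succ_apply']
    have h1 : (Lop α)^[t] f = fun y => ∑ T, (mu α T ^ t * coef f T) * chi T y := funext ih
    rw [h1, Lop_sum h]
    exact sum_congr rfl fun T _ => by ring

theorem Lop_bound {α : Finset (Fin n) → ℝ} (h : 0 < weight α) (f : Cube n → ℝ) (t : ℕ)
    (x : Cube n) :
    ((Lop α)^[t] f x) ^ 2 ≤ (∑ T, mu α T ^ (2 * t)) / 2 ^ n * (f ⬝ᵥ f) := by
  rw [Lop_iter h]
  have h1 := sum_mul_sq_le_sq_mul_sq univ (fun T => mu α T ^ t) (fun T => coef f T * chi T x)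
  have h2 : ∑ T, (mu α T ^ t * coef f T) * chi T x = ∑ T, mu α T ^ t * (coef f T * chi T x) :=
    sum_congr rfl fun T _ => by ring
  rw [h2]
  refine h1.trans (le_of_eq ?_)
  have h3 : ∑ T, (coef f T * chi T x) ^ 2 = (f ⬝ᵥ f) / 2 ^ n := by
    rw [← parseval]
    refine sum_congr rfl fun T _ => ?_
    have := chi_sq T x
    calc (coef f T * chi T x) ^ 2 = coef f T ^ 2 * (chi T x * chi T x) := by ring
      _ = _ := by rw [this, mul_one]
  rw [h3]
  have h4 : ∀ T : Finset (Fin n), (mu α T ^ t) ^ 2 = mu α T ^ (2 * t) := fun T => by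
    rw [← pow_mul, mul_comm]
  simp only [h4]
  ring

end Pool.Agent.H73.QA
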